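import Pool.Agent.Lib_helper62.Gap.C2

set_option autoImplicit false

open Finset Filter Topology

namespace Pool.Agent.Gap.H62

variable (G : GapKernel)

lemma conv_real {N : ℕ} {F H : ℤ → ℝ} (hF : ∀ g : ℤ, (g < 1 ∨ (N : ℤ) < g) → F g = 0)
    (hH : ∀ g : ℤ, (g < 1 ∨ (N : ℤ) < g) → H g = 0) (i : ℕ × ℕ) :
    ∑ g ∈ Icc (1 : ℤ) N, ∑ g' ∈ Icc (1 : ℤ) N, G.T i (g' - g) * F g * H g'
      ≤ G.tot i * (Real.sqrt (∑ g ∈ Icc (1 : ℤ) N, F g ^ 2) *
        Real.sqrt (∑ g ∈ Icc (1 : ℤ) N, H g ^ 2)) := by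
  have hFfs : FS F := ⟨Icc 1 (N : ℤ), fun g hg => hF g (by rw [Finset.mem_Icc] at hg; omega)⟩
  have hHfs : FS H := ⟨Icc 1 (N : ℤ), fun g hg => hH g (by rw [Finset.mem_Icc] at hg; omega)⟩
  have ts : ∀ {X Y : ℤ → ℝ}, (∀ g : ℤ, (g < 1 ∨ (N : ℤ) < g) → X g = 0) →
      (∀ g, X g = 0 → Y g = 0) → ∑' g, Y g = ∑ g ∈ Icc (1 : ℤ) N, Y g := by
    intro X Y hX hY
    exact tsum_eq_sum (fun g hg => hY g (hX g (by rw [Finset.mem_Icc] at hg; omega)))
  have h1 : ∀ g : ℤ, ∑ g' ∈ Icc (1 : ℤ) N, G.T i (g' - g) * F g * H g'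
      = ∑ d ∈ Icc (-(G.R : ℤ)) G.R, G.T i d * (F g * H (g + d)) := by
    intro g
    rw [← ts (Y := fun g' => G.T i (g' - g) * F g * H g') hH (fun g' hg' => by simp [hg'])]
    rw [← tsum_shift (fun g' => G.T i (g' - g) * F g * H g') g]
    have e : ∀ d : ℤ, G.T i (d + g - g) * F g * H (d + g)
        = G.T i d * (F g * H (g + d)) := by
      intro d
      rw [add_sub_cancel_right, add_comm d g]
      ring
    simp only [e]
    apply tsum_eq_sum
    intro d hd
    rw [Finset.mem_Icc] at hd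
    have : (G.R : ℤ) < |d| := by
      rcases le_total 0 d with h0 | h0
      · rw [abs_of_nonneg h0]; omega
      · rw [abs_of_nonpos h0]; omega
    rw [G.T_range i d this]
    simp
  simp only [h1]
  rw [Finset.sum_comm]
  unfold GapKernel.tot
  rw [Finset.sum_mul]
  refine Finset.sum_le_sum fun d _ => ?_
  rw [← Finset.mul_sum]
  apply mul_le_mul_of_nonneg_left _ (G.T_nonneg i d)
  rw [← ts (Y := fun g => F g * H (g + d)) hF (fun g hg => by simp [hg])]
  refine (csr hFfs (hHfs.shift d)).trans ?_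
  rw [tsum_shift (fun g => H g ^ 2) d, ts (Y := fun g => F g ^ 2) hF (fun g hg => by simp [hg]),
    ts (Y := fun g => H g ^ 2) hH (fun g hg => by simp [hg])]

/-- the sesquilinear form of a piece type -/
noncomputable def B (eps : ℝ) (N : ℕ) (i : ℕ × ℕ) (f : ℤ → ℂ) : ℂ :=
  ∑ g ∈ Icc (1 : ℤ) N, ∑ g' ∈ Icc (1 : ℤ) N,
    ((G.K i g g' * GapKernel.wt eps i g g' : ℝ) : ℂ) * (starRingEnd ℂ) (f g) * f g'

lemma wt_symm (eps : ℝ) (i : ℕ × ℕ) (g g' : ℤ) :
    GapKernel.wt eps i g g' = GapKernel.wt eps i g' g := by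
  unfold GapKernel.wt
  rw [add_comm (g : ℝ) (g' : ℝ)]

lemma wt_nonneg (eps : ℝ) (i : ℕ × ℕ) (g g' : ℤ) : 0 ≤ GapKernel.wt eps i g g' :=
  (Real.exp_pos _).le

lemma wt_le_one {eps : ℝ} (he : 0 ≤ eps) (i : ℕ × ℕ) {g g' : ℤ} (h1 : 0 ≤ g) (h2 : 0 ≤ g') :
    GapKernel.wt eps i g g' ≤ 1 := by
  unfold GapKernel.wt
  apply Real.exp_le_one_iff.2
  have h1 : (0:ℝ) ≤ g := by exact_mod_cast h1
  have h2 : (0:ℝ) ≤ g' := by exact_mod_cast h2
  have : 0 ≤ eps * (i.2 : ℝ) * ((g : ℝ) + (g' : ℝ)) := by positivity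
  linarith

lemma B_conj (eps : ℝ) (N : ℕ) (i : ℕ × ℕ) (f : ℤ → ℂ) :
    (starRingEnd ℂ) (B G eps N i f) = B G eps N i f := by
  unfold B
  rw [map_sum]
  simp only [map_sum]
  rw [Finset.sum_comm]
  refine Finset.sum_congr rfl fun g _ => Finset.sum_congr rfl fun g' _ => ?_
  rw [map_mul, map_mul, Complex.conj_ofReal, Complex.conj_conj, G.K_symm i g' g,
    wt_symm eps i g' g]
  ring

lemma B_im (eps : ℝ) (N : ℕ) (i : ℕ × ℕ) (f : ℤ → ℂ) : (B G eps N i f).im = 0 :=
  Complex.conj_eq_iff_im.1 (B_conj G eps N i f)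

lemma B_norm {eps : ℝ} (he : 0 ≤ eps) {N : ℕ} (i : ℕ × ℕ) {f : ℤ → ℂ} (hf : Supp N f) :
    ‖B G eps N i f‖ ≤ G.tot i * nsq N f := by
  unfold B
  have h0 : ∀ g : ℤ, (g < 1 ∨ (N : ℤ) < g) → ‖f g‖ = 0 := fun g hg => by rw [hf g hg, norm_zero]
  calc _ ≤ ∑ g ∈ Icc (1 : ℤ) N, ∑ g' ∈ Icc (1 : ℤ) N,
        ‖((G.K i g g' * GapKernel.wt eps i g g' : ℝ) : ℂ) * (starRingEnd ℂ) (f g) * f g'‖ :=
        (norm_sum_le _ _).trans (Finset.sum_le_sum fun g _ => norm_sum_le _ _)
    _ ≤ ∑ g ∈ Icc (1 : ℤ) N, ∑ g' ∈ Icc (1 : ℤ) N, G.T i (g' - g) * ‖f g‖ * ‖f g'‖ := by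
        refine Finset.sum_le_sum fun g hg => Finset.sum_le_sum fun g' hg' => ?_
        rw [Finset.mem_Icc] at hg hg'
        rw [norm_mul, norm_mul, Complex.norm_real, RCLike.norm_conj,
          Real.norm_of_nonneg (mul_nonneg (G.K_nonneg _ _ _) (wt_nonneg _ _ _ _))]
        apply mul_le_mul_of_nonneg_right _ (norm_nonneg _)
        apply mul_le_mul_of_nonneg_right _ (norm_nonneg _)
        calc G.K i g g' * GapKernel.wt eps i g g' ≤ G.T i (g' - g) * 1 :=
              mul_le_mul (G.K_le _ _ _) (wt_le_one he i (by omega) (by omega))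
                (wt_nonneg _ _ _ _) (G.T_nonneg _ _)
          _ = _ := mul_one _
    _ ≤ G.tot i * (Real.sqrt (∑ g ∈ Icc (1 : ℤ) N, ‖f g‖ ^ 2) *
        Real.sqrt (∑ g ∈ Icc (1 : ℤ) N, ‖f g‖ ^ 2)) := conv_real G h0 h0 i
    _ = _ := by
        rw [Real.mul_self_sqrt (Finset.sum_nonneg fun _ _ => by positivity)]
        rfl

lemma form_eq (eps : ℝ) (z : ℂ) (N : ℕ) (f : ℤ → ℂ) :
    form N f (G.Lop eps z N f) = (nsq N f : ℂ) - ∑ i ∈ G.S, z ^ i.1 * B G eps N i f := by
  unfold form GapKernel.Lop GapKernel.Kap GapKernel.Kz nsq B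
  push_cast
  have h1 : ∀ g : ℤ, (starRingEnd ℂ) (f g) * (f g - ∑ g' ∈ Icc (1 : ℤ) N,
      (∑ i ∈ G.S, ((i.1 : ℂ)) ^ 0 * z ^ i.1 * ((G.K i g g' : ℂ) * (GapKernel.wt eps i g g' : ℂ)))
        * f g')
      = (‖f g‖ : ℂ) ^ 2 - ∑ i ∈ G.S, z ^ i.1 * ∑ g' ∈ Icc (1 : ℤ) N,
        ((G.K i g g' : ℂ) * (GapKernel.wt eps i g g' : ℂ)) * (starRingEnd ℂ) (f g) * f g' := by
    intro g
    rw [mul_sub, Complex.conj_mul']
    congr 1
    rw [Finset.mul_sum]
    simp only [Finset.sum_mul, Finset.mul_sum]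
    rw [Finset.sum_comm]
    refine Finset.sum_congr rfl fun i _ => Finset.sum_congr rfl fun g' _ => ?_
    rw [pow_zero]
    ring
  simp only [h1]
  rw [Finset.sum_sub_distrib]
  congr 1
  rw [Finset.sum_comm]
  refine Finset.sum_congr rfl fun i _ => ?_
  rw [Finset.mul_sum]

lemma one_le_R : 1 ≤ G.R := by
  by_contra h
  have h0 : G.R = 0 := by omega
  have := G.T_range (1, 1) 1 (by rw [h0]; norm_num)
  rw [G.T_one.2.1] at this
  norm_num at this

lemma T_i0_sum {M : Type*} [AddCommMonoid M] (F : ℤ → M) (hF : ∀ d : ℤ, 2 ≤ |d| → F d = 0) :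
    ∑ d ∈ Icc (-(G.R : ℤ)) G.R, F d = F (-1) + F 0 + F 1 := by
  have hR := one_le_R G
  have hsub : Icc (-1 : ℤ) 1 ⊆ Icc (-(G.R : ℤ)) G.R := Finset.Icc_subset_Icc (by omega) (by omega)
  rw [← Finset.sum_subset hsub]
  · have : Icc (-1 : ℤ) 1 = {-1, 0, 1} := by decide
    rw [this, Finset.sum_insert (by decide), Finset.sum_insert (by decide),
      Finset.sum_singleton, add_assoc]
  · intro d _ hd
    apply hF
    rw [Finset.mem_Icc] at hd
    rcases le_total 0 d with h0 | h0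
    · rw [abs_of_nonneg h0]; omega
    · rw [abs_of_nonpos h0]; omega

lemma T_neg_one : G.T (1, 1) (-1) = 1 := by rw [G.T_even]; exact G.T_one.2.1

lemma tot_i0 : G.tot (1, 1) = 4 := by
  unfold GapKernel.tot
  rw [T_i0_sum G (fun d => G.T (1, 1) d) (fun d hd => G.T_one.2.2 d hd)]
  rw [T_neg_one, G.T_one.1, G.T_one.2.1]
  norm_num

/-- damped function -/
noncomputable def damp (eps : ℝ) (f : ℤ → ℂ) (g : ℤ) : ℂ := (Real.exp (-(eps * (g : ℝ))) : ℂ) * f g

lemma damp_supp (eps : ℝ) {N : ℕ} {f : ℤ → ℂ} (hf : Supp N f) : Supp N (damp eps f) := by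
  intro g hg
  unfold damp
  rw [hf g hg, mul_zero]

lemma B_i0 {eps : ℝ} {N : ℕ} {f : ℤ → ℂ} (hf : Supp N f) :
    (B G eps N (1, 1) f).re = 4 * nsq N (damp eps f) - En N (damp eps f) := by
  set u := damp eps f with hu
  have hus : Supp N u := damp_supp eps hf
  have hcs : Supp N (fun g => (starRingEnd ℂ) (u g)) := fun g hg => by simp [hus g hg]
  have hufs := supp_fs hus
  have h1 : B G eps N (1, 1) f = ∑ g ∈ Icc (1 : ℤ) N, ∑ g' ∈ Icc (1 : ℤ) N,
      ((G.T (1, 1) (g' - g) : ℝ) : ℂ) * (starRingEnd ℂ) (u g) * u g' := by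
    unfold B
    refine Finset.sum_congr rfl fun g hg => Finset.sum_congr rfl fun g' hg' => ?_
    rw [Finset.mem_Icc] at hg hg'
    rw [G.K_one g g' hg.1 hg'.1, hu]
    unfold damp GapKernel.wt
    have : Real.exp (-(eps * (((1, 1) : ℕ × ℕ).2 : ℝ) * ((g : ℝ) + (g' : ℝ))))
        = Real.exp (-(eps * (g : ℝ))) * Real.exp (-(eps * (g' : ℝ))) := by
      rw [← Real.exp_add]
      congr 1
      push_cast
      ring
    rw [this, map_mul, Complex.conj_ofReal]
    push_cast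
    ring
  rw [conv_sum G hcs hus] at h1
  rw [T_i0_sum G (fun d => ((G.T (1, 1) d : ℝ) : ℂ) * ∑' g, (starRingEnd ℂ) (u g) * u (g + d))
    (fun d hd => by simp [G.T_one.2.2 d hd])] at h1
  rw [T_neg_one, G.T_one.1, G.T_one.2.1] at h1
  have e1 : ∑' g, (starRingEnd ℂ) (u g) * u (g + -1) = ∑' g, (starRingEnd ℂ) (u (g + 1)) * u g := by
    rw [← tsum_shift (fun g => (starRingEnd ℂ) (u g) * u (g + -1)) 1]
    congr 1
    funext g
    have : g + 1 + -1 = g := by ring
    rw [this]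
  have e2 : ∑' g, (starRingEnd ℂ) (u g) * u (g + 0) = (∑' g, ‖u g‖ ^ 2 : ℝ) := by
    rw [Complex.ofReal_tsum]
    congr 1
    funext g
    rw [add_zero, Complex.conj_mul', Complex.ofReal_pow]
  have s1 : Summable (fun g => ‖u g‖ ^ 2) := FS.summable (hufs.of_imp (fun g hg => by simp [hg]))
  have s2 : Summable (fun g => ‖u (g + 1)‖ ^ 2) :=
    FS.summable ((hufs.shift 1).of_imp (fun g hg => by simp [hg]))
  have s3 : Summable (fun g => (starRingEnd ℂ) (u (g + 1)) * u g) :=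
    FS.summable (hufs.of_imp (fun g hg => by simp [hg]))
  have s4 : Summable (fun g => (starRingEnd ℂ) (u g) * u (g + 1)) :=
    FS.summable (hufs.of_imp (fun g hg => by simp [hg]))
  have e3 : ∑' g, (((‖u (g + 1) - u g‖ ^ 2 : ℝ)) : ℂ)
      = (∑' g, ‖u (g + 1)‖ ^ 2 : ℝ) + (∑' g, ‖u g‖ ^ 2 : ℝ)
        - ∑' g, (starRingEnd ℂ) (u (g + 1)) * u g - ∑' g, (starRingEnd ℂ) (u g) * u (g + 1) := by
    rw [Complex.ofReal_tsum, Complex.ofReal_tsum]
    have s1' : Summable (fun g => ((‖u g‖ ^ 2 : ℝ) : ℂ)) := Complex.ofRealCLM.summable s1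
    have s2' : Summable (fun g => ((‖u (g + 1)‖ ^ 2 : ℝ) : ℂ)) := Complex.ofRealCLM.summable s2
    rw [← Summable.tsum_add s2' s1', ← Summable.tsum_sub (s2'.add s1') s3,
      ← Summable.tsum_sub ((s2'.add s1').sub s3) s4]
    congr 1
    funext g
    rw [Complex.ofReal_pow, Complex.ofReal_pow, Complex.ofReal_pow]
    rw [← Complex.conj_mul', ← Complex.conj_mul', ← Complex.conj_mul', map_sub]
    ring
  have e4 : ∑' g, ‖u (g + 1)‖ ^ 2 = ∑' g, ‖u g‖ ^ 2 := tsum_shift (fun g => ‖u g‖ ^ 2) 1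
  rw [← Complex.ofReal_tsum, ← En_eq hus, e4, ← nsq_eq hus] at e3
  rw [e1, e2, ← nsq_eq hus] at h1
  have h2 : B G eps N (1, 1) f = ((4 * nsq N u - En N u : ℝ) : ℂ) := by
    rw [h1]
    rw [Complex.ofReal_sub, e3]
    push_cast
    ring
  rw [h2, Complex.ofReal_re]

lemma En_le {N : ℕ} {f : ℤ → ℂ} (hf : Supp N f) : En N f ≤ 4 * nsq N f := by
  have hfs := supp_fs hf
  rw [En_eq hf, nsq_eq hf]
  have s1 : Summable (fun g => ‖f g‖ ^ 2) := FS.summable (hfs.of_imp (fun g hg => by simp [hg]))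
  have s2 : Summable (fun g => ‖f (g + 1)‖ ^ 2) :=
    FS.summable ((hfs.shift 1).of_imp (fun g hg => by simp [hg]))
  have s3 : Summable (fun g => ‖f (g + 1) - f g‖ ^ 2) :=
    FS.summable ((hfs.shift 1).of_imp2 hfs (fun g h1 h2 => by simp [h1, h2]))
  have h1 : ∀ g, ‖f (g + 1) - f g‖ ^ 2 ≤ 2 * (‖f (g + 1)‖ ^ 2 + ‖f g‖ ^ 2) := by
    intro g
    have := norm_sub_le (f (g + 1)) (f g)
    have h0 := norm_nonneg (f (g + 1) - f g)
    nlinarith [sq_nonneg (‖f (g + 1)‖ - ‖f g‖)]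
  have h2 := s3.tsum_le_tsum h1 ((s2.add s1).mul_left 2)
  rw [tsum_mul_left, Summable.tsum_add s2 s1, tsum_shift (fun g => ‖f g‖ ^ 2) 1] at h2
  linarith

lemma Pot_le {eps : ℝ} {N : ℕ} (f : ℤ → ℂ) : Pot eps N f ≤ nsq N f := by
  apply Finset.sum_le_sum
  intro g _
  have : 0 < Real.exp (-(eps * (g : ℝ))) := Real.exp_pos _
  have h2 : 0 ≤ ‖f g‖ ^ 2 := by positivity
  nlinarith

lemma nsq_damp_le {eps : ℝ} (he : 0 ≤ eps) {N : ℕ} (f : ℤ → ℂ) :
    nsq N (damp eps f) ≤ nsq N f := by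
  apply Finset.sum_le_sum
  intro g hg
  rw [Finset.mem_Icc] at hg
  have hg1 : (0:ℝ) ≤ g := by exact_mod_cast (by omega : (0:ℤ) ≤ g)
  have h1 : Real.exp (-(eps * (g : ℝ))) ≤ 1 := Real.exp_le_one_iff.2 (by nlinarith)
  have h0 : 0 < Real.exp (-(eps * (g : ℝ))) := Real.exp_pos _
  unfold damp
  rw [norm_mul, Complex.norm_real, Real.norm_of_nonneg h0.le]
  apply pow_le_pow_left₀ (by positivity)
  have := norm_nonneg (f g)
  nlinarith

/-- the damping loss controls the energy -/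
lemma D_le_Q {eps : ℝ} (he : 0 ≤ eps) {N : ℕ} {f : ℤ → ℂ} (hf : Supp N f) :
    En N f + Pot eps N f
      ≤ 7 * (4 * nsq N f - 4 * nsq N (damp eps f) + En N (damp eps f)) := by
  set u := damp eps f with hu
  have hus : Supp N u := damp_supp eps hf
  have hfs := supp_fs hf
  have hufs := supp_fs hus
  -- the loss
  set L : ℤ → ℝ := fun g => (1 - Real.exp (-(eps * (g : ℝ))) ^ 2) * ‖f g‖ ^ 2 with hL
  have hpos : ∀ g : ℤ, 0 ≤ g → Real.exp (-(eps * (g : ℝ))) ≤ 1 := by
    intro g hg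
    have hg1 : (0:ℝ) ≤ g := by exact_mod_cast hg
    exact Real.exp_le_one_iff.2 (by nlinarith)
  have hL0 : ∀ g, f g = 0 → L g = 0 := fun g hg => by simp [L, hg]
  have hLsum : ∑' g, L g = nsq N f - nsq N u := by
    rw [tsum_supp hf L hL0]
    unfold nsq
    rw [← Finset.sum_sub_distrib]
    refine Finset.sum_congr rfl fun g _ => ?_
    rw [hu]
    unfold damp
    rw [norm_mul, Complex.norm_real, Real.norm_of_nonneg (Real.exp_pos _).le]
    simp only [L]
    ring
  have hLfs : FS L := hfs.of_imp hL0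
  have hPotL : Pot eps N f ≤ ∑' g, L g := by
    rw [tsum_supp hf L hL0]
    apply Finset.sum_le_sum
    intro g hg
    rw [Finset.mem_Icc] at hg
    have h1 := hpos g (by omega)
    have h0 := Real.exp_pos (-(eps * (g : ℝ)))
    have h2 : 0 ≤ ‖f g‖ ^ 2 := by positivity
    simp only [L]
    apply mul_le_mul_of_nonneg_right _ h2
    nlinarith
  have hval : ∀ g, ‖f g - u g‖ ^ 2 ≤ L g := by
    intro g
    rcases lt_or_ge g 1 with h0 | h0
    · rw [hus g (Or.inl h0), hf g (Or.inl h0), hL0 g (hf g (Or.inl h0))]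
      simp
    · have h1 := hpos g (by omega)
      have h2 := Real.exp_pos (-(eps * (g : ℝ)))
      have e : f g - u g = ((1 - Real.exp (-(eps * (g : ℝ))) : ℝ) : ℂ) * f g := by
        rw [hu]
        unfold damp
        push_cast
        ring
      rw [e, norm_mul, Complex.norm_real, Real.norm_of_nonneg (by linarith), mul_pow]
      simp only [L]
      apply mul_le_mul_of_nonneg_right _ (by positivity)
      nlinarith
  have hEn : En N f ≤ 3 * En N u + 6 * ∑' g, L g := by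
    rw [En_eq hf, En_eq hus]
    have s0 : Summable (fun g => ‖f (g + 1) - f g‖ ^ 2) :=
      FS.summable ((hfs.shift 1).of_imp2 hfs (fun g h1 h2 => by simp [h1, h2]))
    have s1 : Summable (fun g => ‖u (g + 1) - u g‖ ^ 2) :=
      FS.summable ((hufs.shift 1).of_imp2 hufs (fun g h1 h2 => by simp [h1, h2]))
    have s2 : Summable L := hLfs.summable
    have s3 : Summable (fun g => L (g + 1)) := (hLfs.shift 1).summable
    have h1 : ∀ g, ‖f (g + 1) - f g‖ ^ 2
        ≤ 3 * ‖u (g + 1) - u g‖ ^ 2 + 3 * (L (g + 1) + L g) := by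
      intro g
      have e : f (g + 1) - f g = (u (g + 1) - u g) + (f (g + 1) - u (g + 1)) - (f g - u g) := by
        ring
      have h2 : ‖f (g + 1) - f g‖ ≤ ‖u (g + 1) - u g‖ + ‖f (g + 1) - u (g + 1)‖ + ‖f g - u g‖ := by
        calc ‖f (g + 1) - f g‖
            = ‖(u (g + 1) - u g) + (f (g + 1) - u (g + 1)) - (f g - u g)‖ := by rw [← e]
          _ ≤ ‖(u (g + 1) - u g) + (f (g + 1) - u (g + 1))‖ + ‖f g - u g‖ := norm_sub_le _ _
          _ ≤ _ := by
            have := norm_add_le (u (g + 1) - u g) (f (g + 1) - u (g + 1))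
            linarith
      have h3 := hval g
      have h4 := hval (g + 1)
      have a0 := norm_nonneg (f (g + 1) - f g)
      have a1 := norm_nonneg (u (g + 1) - u g)
      have a2 := norm_nonneg (f (g + 1) - u (g + 1))
      have a3 := norm_nonneg (f g - u g)
      have h5 : ‖f (g + 1) - f g‖ ^ 2
          ≤ (‖u (g + 1) - u g‖ + ‖f (g + 1) - u (g + 1)‖ + ‖f g - u g‖) ^ 2 :=
        pow_le_pow_left₀ a0 h2 2
      nlinarith [sq_nonneg (‖u (g + 1) - u g‖ - ‖f (g + 1) - u (g + 1)‖),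
        sq_nonneg (‖u (g + 1) - u g‖ - ‖f g - u g‖),
        sq_nonneg (‖f (g + 1) - u (g + 1)‖ - ‖f g - u g‖)]
    have h2 := s0.tsum_le_tsum h1 ((s1.mul_left 3).add ((s3.add s2).mul_left 3))
    rw [Summable.tsum_add (s1.mul_left 3) ((s3.add s2).mul_left 3), tsum_mul_left, tsum_mul_left,
      Summable.tsum_add s3 s2, tsum_shift L 1] at h2
    linarith
  have hEu := En_nonneg N u
  have hD := nsq_damp_le he (N := N) f
  rw [← hu] at hD
  rw [hLsum] at hEn hPotL
  linarith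

/-- imaginary parts of powers -/
lemma im_pow {rho : ℝ} (hr : 0 < rho) (m : ℕ) : ∃ C : ℝ, 0 ≤ C ∧ ∀ z : ℂ, ‖z‖ ≤ rho →
    |(z ^ m).im - (m : ℝ) * rho ^ (m - 1) * z.im| ≤ C * (|z.im| * ‖(rho : ℂ) - z‖) := by
  have hpow : ∀ m : ℕ, ∃ C : ℝ, 0 ≤ C ∧ ∀ z : ℂ, ‖z‖ ≤ rho →
      ‖z ^ m - (rho : ℂ) ^ m‖ ≤ C * ‖(rho : ℂ) - z‖ := by
    intro m
    induction m with
    | zero => exact ⟨0, le_rfl, fun z _ => by simp⟩
    | succ m ih =>
      obtain ⟨C, hC, h⟩ := ih
      refine ⟨C * rho + rho ^ m, by positivity, fun z hz => ?_⟩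
      have e : z ^ (m + 1) - (rho : ℂ) ^ (m + 1)
          = (z ^ m - (rho : ℂ) ^ m) * z - (rho : ℂ) ^ m * ((rho : ℂ) - z) := by ring
      rw [e]
      refine (norm_sub_le _ _).trans ?_
      rw [norm_mul, norm_mul, norm_pow, Complex.norm_real, Real.norm_of_nonneg hr.le]
      have h1 := h z hz
      have h2 : ‖z ^ m - (rho : ℂ) ^ m‖ * ‖z‖ ≤ (C * ‖(rho : ℂ) - z‖) * rho :=
        mul_le_mul h1 hz (norm_nonneg _) (by positivity)
      nlinarith [norm_nonneg ((rho : ℂ) - z)]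
  induction m with
  | zero => exact ⟨0, le_rfl, fun z _ => by simp⟩
  | succ m ih =>
    obtain ⟨C, hC, h⟩ := ih
    obtain ⟨C', hC', h'⟩ := hpow m
    refine ⟨C * rho + m * rho ^ (m - 1) + C', by positivity, fun z hz => ?_⟩
    have h1 := h z hz
    have h2 := h' z hz
    have him : (z ^ (m + 1)).im = (z ^ m).im * z.re + (z ^ m).re * z.im := by
      rw [pow_succ, Complex.mul_im]
      ring
    have hre : |z.re| ≤ rho := (Complex.abs_re_le_norm z).trans hz
    have hd : |z.re - rho| ≤ ‖(rho : ℂ) - z‖ := by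
      have := Complex.abs_re_le_norm ((rho : ℂ) - z)
      rw [Complex.sub_re, Complex.ofReal_re] at this
      rw [abs_sub_comm]
      exact this
    have hrm : |(z ^ m).re - rho ^ m| ≤ C' * ‖(rho : ℂ) - z‖ := by
      refine le_trans ?_ h2
      have := Complex.abs_re_le_norm (z ^ m - (rho : ℂ) ^ m)
      rw [Complex.sub_re, ← Complex.ofReal_pow, Complex.ofReal_re] at this
      rw [← Complex.ofReal_pow]
      exact this
    have hmul : (m : ℝ) * rho ^ (m - 1) * rho = m * rho ^ m := by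
      rcases m with _ | m
      · simp
      · rw [Nat.add_sub_cancel, pow_succ]
        ring
    have e : (z ^ (m + 1)).im - ((m + 1 : ℕ) : ℝ) * rho ^ (m + 1 - 1) * z.im
        = ((z ^ m).im - (m : ℝ) * rho ^ (m - 1) * z.im) * z.re
          + (m : ℝ) * rho ^ (m - 1) * z.im * (z.re - rho) + ((z ^ m).re - rho ^ m) * z.im := by
      rw [him, Nat.add_sub_cancel]
      push_cast
      linear_combination z.im * hmul
    rw [e]
    refine (abs_add_le _ _).trans ?_
    refine (add_le_add (abs_add_le _ _) le_rfl).trans ?_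
    rw [abs_mul ((z ^ m).im - (m : ℝ) * rho ^ (m - 1) * z.im) z.re,
      abs_mul ((m : ℝ) * rho ^ (m - 1) * z.im) (z.re - rho),
      abs_mul ((m : ℝ) * rho ^ (m - 1)) z.im, abs_mul ((z ^ m).re - rho ^ m) z.im]
    have hy := abs_nonneg z.im
    have hdel := norm_nonneg ((rho : ℂ) - z)
    have t1 : |(z ^ m).im - (m : ℝ) * rho ^ (m - 1) * z.im| * |z.re|
        ≤ (C * (|z.im| * ‖(rho : ℂ) - z‖)) * rho :=
      mul_le_mul h1 hre (abs_nonneg _) (by positivity)
    have hm0 : (0:ℝ) ≤ m * rho ^ (m - 1) := by positivity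
    have t2 : |(m : ℝ) * rho ^ (m - 1)| * |z.im| * |z.re - rho|
        ≤ (m * rho ^ (m - 1)) * |z.im| * ‖(rho : ℂ) - z‖ := by
      rw [abs_of_nonneg hm0]
      exact mul_le_mul_of_nonneg_left hd (by positivity)
    have t3 : |(z ^ m).re - rho ^ m| * |z.im| ≤ (C' * ‖(rho : ℂ) - z‖) * |z.im| :=
      mul_le_mul_of_nonneg_right hrm hy
    calc _ ≤ (C * (|z.im| * ‖(rho : ℂ) - z‖)) * rho
          + (m * rho ^ (m - 1)) * |z.im| * ‖(rho : ℂ) - z‖ + (C' * ‖(rho : ℂ) - z‖) * |z.im| :=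
          add_le_add (add_le_add t1 t2) t3
      _ = _ := by ring

/-- the form is controlled from below -/
lemma coercive (h2 : C2_Stmt) : ∃ c : ℝ, 0 < c ∧
  ∀ (N : ℕ) (eps : ℝ) (z : ℂ) (f : ℤ → ℂ), 0 ≤ eps → ‖z‖ ≤ G.rho → Supp N f →
    c * (‖(G.rho : ℂ) - z‖ * nsq N f + En N f + Pot eps N f)
      ≤ ‖form N f (G.Lop eps z N f)‖ := by
  classical
  obtain ⟨C2, hC2, hC2'⟩ := h2 G
  have hr := G.rho_pos
  choose Cm hCm hCm' using fun m : ℕ => im_pow hr m
  -- the constants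
  set c2 : ℝ := ∑ i ∈ G.S, (i.1 : ℝ) * G.rho ^ (i.1 - 1) * G.tot i with hc2
  set C3 : ℝ := ∑ i ∈ G.S, Cm i.1 * G.tot i with hC3
  set C4 : ℝ := ∑ i ∈ G.S, (i.1 : ℝ) * G.rho ^ (i.1 - 1) * C2 with hC4
  have hC3n : 0 ≤ C3 := Finset.sum_nonneg fun i _ => mul_nonneg (hCm _) (tot_nonneg G i)
  have hC4n : 0 ≤ C4 := Finset.sum_nonneg fun i _ => by positivity
  have hc2n : 4 ≤ c2 := by
    have := Finset.single_le_sum (f := fun i : ℕ × ℕ => (i.1 : ℝ) * G.rho ^ (i.1 - 1) * G.tot i)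
      (fun i _ => mul_nonneg (by positivity) (tot_nonneg G i)) G.i0_mem
    simp only [tot_i0] at this
    norm_num at this
    exact this
  set eta : ℝ := min (G.rho / 2) (1 / (1 + G.rho * C3 ^ 2)) with heta
  have hden : 0 < 1 + G.rho * C3 ^ 2 := by positivity
  have heta0 : 0 < eta := lt_min (by linarith) (by positivity)
  have heta1 : eta ≤ G.rho / 2 := min_le_left _ _
  have heta2 : eta * (G.rho * C3 ^ 2) ≤ 1 := by
    have h1 : eta ≤ 1 / (1 + G.rho * C3 ^ 2) := min_le_right _ _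
    have h3 : eta * (1 + G.rho * C3 ^ 2) ≤ 1 := by
      rw [le_div_iff₀ hden] at h1
      exact h1
    nlinarith
  set th : ℝ := 1 / (28 * (1 + C4)) with hth
  have hth0 : 0 < th := by positivity
  have hth1 : th ≤ 1 / 28 := by
    rw [hth]
    apply one_div_le_one_div_of_le (by norm_num)
    nlinarith
  have hth2 : th * C4 ≤ 1 / 28 := by
    rw [hth, div_mul_eq_mul_div, one_mul, div_le_div_iff₀ (by positivity) (by norm_num)]
    nlinarith
  set c : ℝ := min (4 * eta / (2 * G.rho + 5)) (min th (G.rho / 56)) with hc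
  have hc0 : 0 < c := lt_min (by positivity) (lt_min hth0 (by positivity))
  have hc_1 : c ≤ 4 * eta / (2 * G.rho + 5) := min_le_left _ _
  have hc_2 : c ≤ th := (min_le_right _ _).trans (min_le_left _ _)
  have hc_3 : c ≤ G.rho / 56 := (min_le_right _ _).trans (min_le_right _ _)
  refine ⟨c, hc0, ?_⟩
  intro N eps z f he hz hf
  set del := ‖(G.rho : ℂ) - z‖ with hdel
  set n2 := nsq N f with hn2
  set D := En N f + Pot eps N f with hD
  have hn2n : 0 ≤ n2 := nsq_nonneg N f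
  have hDn : 0 ≤ D := add_nonneg (En_nonneg N f) (Pot_nonneg he N f)
  have hdeln : 0 ≤ del := norm_nonneg _
  rw [add_assoc, ← hD]
  set A := form N f (G.Lop eps z N f) with hA
  have hAeq : A = (n2 : ℂ) - ∑ i ∈ G.S, z ^ i.1 * B G eps N i f := form_eq G eps z N f
  set b : ℕ × ℕ → ℝ := fun i => (B G eps N i f).re with hb
  have hBb : ∀ i, B G eps N i f = (b i : ℂ) := by
    intro i
    apply Complex.ext
    · simp [b]
    · rw [B_im, Complex.ofReal_im]
  have hbn : ∀ i, |b i| ≤ G.tot i * n2 := by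
    intro i
    exact (Complex.abs_re_le_norm _).trans (B_norm G he i hf)
  have hbl : ∀ i ∈ G.S, G.tot i * n2 - C2 * D ≤ b i := by
    intro i hi
    have hcs : Supp N (fun g => (starRingEnd ℂ) (f g)) := fun g hg => by simp [hf g hg]
    have h1 := hC2' N eps i (fun g => (starRingEnd ℂ) (f g)) f hi he hcs hf
    have e1 : En N (fun g => (starRingEnd ℂ) (f g)) = En N f := by
      unfold En
      refine Finset.sum_congr rfl fun g _ => ?_
      rw [← map_sub, RCLike.norm_conj]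
    have e2 : Pot eps N (fun g => (starRingEnd ℂ) (f g)) = Pot eps N f := by
      unfold Pot
      refine Finset.sum_congr rfl fun g _ => ?_
      rw [RCLike.norm_conj]
    rw [e1, e2, ← hD, Real.mul_self_sqrt hDn] at h1
    have e3 : ∑ g ∈ Icc (1 : ℤ) N, (starRingEnd ℂ) (f g) * f g = (n2 : ℂ) := by
      rw [hn2]
      unfold nsq
      push_cast
      exact Finset.sum_congr rfl fun g _ => Complex.conj_mul' _
    rw [e3] at h1
    have e4 : ∑ g ∈ Icc (1 : ℤ) N, ∑ g' ∈ Icc (1 : ℤ) N,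
        ((G.K i g g' * GapKernel.wt eps i g g' : ℝ) : ℂ) * (starRingEnd ℂ) (f g) * f g'
        = (b i : ℂ) := hBb i
    rw [e4, ← Complex.ofReal_mul, ← Complex.ofReal_sub, Complex.norm_real, Real.norm_eq_abs] at h1
    have := (abs_le.1 h1).2
    linarith
  have hre : A.re = n2 - ∑ i ∈ G.S, (z ^ i.1).re * b i := by
    rw [hAeq, Complex.sub_re, Complex.ofReal_re, Complex.re_sum]
    congr 1
    refine Finset.sum_congr rfl fun i _ => ?_
    rw [hBb, Complex.re_mul_ofReal]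
  have him : A.im = - ∑ i ∈ G.S, (z ^ i.1).im * b i := by
    rw [hAeq, Complex.sub_im, Complex.ofReal_im, Complex.im_sum, zero_sub]
    congr 1
    refine Finset.sum_congr rfl fun i _ => ?_
    rw [hBb, Complex.im_mul_ofReal]
  -- real part
  set x := z.re with hx
  set y := z.im with hy
  set n2u := nsq N (damp eps f) with hn2u
  set Eu := En N (damp eps f) with hEu
  have hb0 : b (1, 1) = 4 * n2u - Eu := B_i0 G hf
  have hb0n : 0 ≤ b (1, 1) := by
    have := En_le (damp_supp eps hf)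
    rw [hb0]
    linarith
  have hreal : 4 * G.rho * n2 - x * b (1, 1) ≤ A.re := by
    rw [hre, ← Finset.add_sum_erase _ _ G.i0_mem]
    have hcrit := G.crit
    rw [← Finset.add_sum_erase _ _ G.i0_mem] at hcrit
    have h40 : ∑ d ∈ Icc (-(G.R : ℤ)) G.R, G.T (1, 1) d = 4 := tot_i0 G
    rw [h40] at hcrit
    simp only [pow_one] at hcrit ⊢
    have h5 : ∑ i ∈ G.S.erase (1, 1), (z ^ i.1).re * b i
        ≤ ∑ i ∈ G.S.erase (1, 1), (G.rho ^ i.1 * ∑ d ∈ Icc (-(G.R : ℤ)) G.R, G.T i d) * n2 := by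
      refine Finset.sum_le_sum fun i _ => ?_
      have h6 : |(z ^ i.1).re| ≤ G.rho ^ i.1 := by
        refine (Complex.abs_re_le_norm _).trans ?_
        rw [norm_pow]
        exact pow_le_pow_left₀ (norm_nonneg _) hz _
      calc (z ^ i.1).re * b i ≤ |(z ^ i.1).re * b i| := le_abs_self _
        _ = |(z ^ i.1).re| * |b i| := abs_mul _ _
        _ ≤ G.rho ^ i.1 * (G.tot i * n2) := mul_le_mul h6 (hbn i) (abs_nonneg _) (by positivity)
        _ = _ := by unfold GapKernel.tot; ring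
    rw [← Finset.sum_mul] at h5
    have h7 : ∑ i ∈ G.S.erase (1, 1), G.rho ^ i.1 * ∑ d ∈ Icc (-(G.R : ℤ)) G.R, G.T i d
        = 1 - G.rho * 4 := by linarith
    rw [h7] at h5
    rw [← hx]
    linarith
  have hnu : n2u ≤ n2 := nsq_damp_le he f
  set Q := 4 * n2 - 4 * n2u + Eu with hQ
  have hQn : 0 ≤ Q := by
    have := En_nonneg N (damp eps f)
    rw [← hEu] at this
    linarith
  have hDQ : D ≤ 7 * Q := D_le_Q he hf
  have hreal2 : 0 ≤ x → 4 * (G.rho - x) * n2 + x * Q ≤ A.re := by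
    intro _
    refine le_trans (le_of_eq ?_) hreal
    rw [hb0, hQ]
    ring
  have hAre : A.re ≤ ‖A‖ := Complex.re_le_norm A
  have hAim : |A.im| ≤ ‖A‖ := Complex.abs_im_le_norm A
  have hxr : |x| ≤ G.rho := (Complex.abs_re_le_norm z).trans hz
  have hyr : |y| ≤ G.rho := (Complex.abs_im_le_norm z).trans hz
  have hxr' := abs_le.1 hxr
  have hD5 : D ≤ 5 * n2 := by
    have h1 := En_le hf
    have h2 := Pot_le (eps := eps) (N := N) f
    rw [hD]
    linarith
  rcases le_or_gt eta (G.rho - x) with hcase | hcase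
  · -- away from the real axis point
    have hmain : 4 * eta * n2 ≤ ‖A‖ := by
      rcases le_total 0 x with hx0 | hx0
      · have h1 := hreal2 hx0
        have h2 : 4 * eta * n2 ≤ 4 * (G.rho - x) * n2 := by
          apply mul_le_mul_of_nonneg_right _ hn2n
          linarith
        have h3 : 0 ≤ x * Q := mul_nonneg hx0 hQn
        linarith
      · have h2 : 4 * eta * n2 ≤ 4 * G.rho * n2 := by
          apply mul_le_mul_of_nonneg_right _ hn2n
          linarith
        have h3 : 0 ≤ (-x) * b (1, 1) := mul_nonneg (by linarith) hb0n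
        linarith
    have hdel2 : del ≤ 2 * G.rho := by
      have h1 := norm_sub_le (G.rho : ℂ) z
      rw [Complex.norm_real, Real.norm_of_nonneg hr.le] at h1
      linarith
    have h1 : del * n2 + D ≤ (2 * G.rho + 5) * n2 := by
      have := mul_le_mul_of_nonneg_right hdel2 hn2n
      linarith
    calc c * (del * n2 + D) ≤ (4 * eta / (2 * G.rho + 5)) * ((2 * G.rho + 5) * n2) := by
          apply mul_le_mul hc_1 h1 _ (by positivity)
          positivity
      _ = 4 * eta * n2 := by field_simp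
      _ ≤ ‖A‖ := hmain
  · -- near the critical point
    have hx0 : G.rho / 2 ≤ x := by linarith
    have h1 := hreal2 (by linarith)
    have hnormz : x ^ 2 + y ^ 2 ≤ G.rho ^ 2 := by
      have : ‖z‖ ^ 2 = x ^ 2 + y ^ 2 := by
        rw [← Complex.normSq_eq_norm_sq, Complex.normSq_apply]
        ring
      rw [← this]
      exact pow_le_pow_left₀ (norm_nonneg _) hz 2
    have hdelsq : del ^ 2 = (G.rho - x) ^ 2 + y ^ 2 := by
      rw [hdel, ← Complex.normSq_eq_norm_sq, Complex.normSq_apply, Complex.sub_re, Complex.sub_im,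
        Complex.ofReal_re, Complex.ofReal_im]
      ring
    have hdel3 : C3 * del ≤ 2 := by
      have h2 : del ^ 2 ≤ 2 * G.rho * eta := by
        rw [hdelsq]
        have e : (G.rho - x) ^ 2 + (G.rho ^ 2 - x ^ 2) = 2 * G.rho * (G.rho - x) := by ring
        have e' : 2 * G.rho * (G.rho - x) ≤ 2 * G.rho * eta :=
          mul_le_mul_of_nonneg_left hcase.le (by positivity)
        linarith
      have h3 : (C3 * del) ^ 2 ≤ 2 ^ 2 := by
        rw [mul_pow]
        have e : C3 ^ 2 * del ^ 2 ≤ C3 ^ 2 * (2 * G.rho * eta) :=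
          mul_le_mul_of_nonneg_left h2 (by positivity)
        have e' : C3 ^ 2 * (2 * G.rho * eta) = 2 * (eta * (G.rho * C3 ^ 2)) := by ring
        linarith
      exact (abs_le_of_sq_le_sq' h3 (by norm_num)).2
    have hdel4 : del ≤ (G.rho - x) + |y| := by
      have h2 : del ^ 2 ≤ ((G.rho - x) + |y|) ^ 2 := by
        rw [hdelsq]
        have e : |y| ^ 2 = y ^ 2 := sq_abs y
        have e' := mul_nonneg (show 0 ≤ G.rho - x by linarith) (abs_nonneg y)
        have e'' : ((G.rho - x) + |y|) ^ 2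
            = (G.rho - x) ^ 2 + |y| ^ 2 + 2 * ((G.rho - x) * |y|) := by ring
        linarith
      exact (abs_le_of_sq_le_sq' h2 (add_nonneg (by linarith) (abs_nonneg _))).2
    -- imaginary part
    have him2 : |y| * (2 * n2 - C4 * D) ≤ |A.im| := by
      have e1 : A.im = - (y * ∑ i ∈ G.S, (i.1 : ℝ) * G.rho ^ (i.1 - 1) * b i)
          - ∑ i ∈ G.S, ((z ^ i.1).im - (i.1 : ℝ) * G.rho ^ (i.1 - 1) * y) * b i := by
        rw [him, Finset.mul_sum]
        have : ∑ i ∈ G.S, (z ^ i.1).im * b i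
            = ∑ i ∈ G.S, y * ((i.1 : ℝ) * G.rho ^ (i.1 - 1) * b i)
              + ∑ i ∈ G.S, ((z ^ i.1).im - (i.1 : ℝ) * G.rho ^ (i.1 - 1) * y) * b i := by
          rw [← Finset.sum_add_distrib]
          exact Finset.sum_congr rfl fun i _ => by ring
        rw [this]
        ring
      have e2 : |∑ i ∈ G.S, ((z ^ i.1).im - (i.1 : ℝ) * G.rho ^ (i.1 - 1) * y) * b i|
          ≤ C3 * del * |y| * n2 := by
        refine (Finset.abs_sum_le_sum_abs _ _).trans ?_
        calc _ ≤ ∑ i ∈ G.S, (Cm i.1 * (|y| * del)) * (G.tot i * n2) := by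
              refine Finset.sum_le_sum fun i _ => ?_
              rw [abs_mul]
              exact mul_le_mul (hCm' i.1 z hz) (hbn i) (abs_nonneg _)
                (mul_nonneg (hCm _) (mul_nonneg (abs_nonneg _) hdeln))
          _ = _ := by
              rw [hC3, Finset.sum_mul, Finset.sum_mul, Finset.sum_mul]
              exact Finset.sum_congr rfl fun i _ => by ring
      have e3 : c2 * n2 - C4 * D ≤ ∑ i ∈ G.S, (i.1 : ℝ) * G.rho ^ (i.1 - 1) * b i := by
        rw [hc2, hC4, Finset.sum_mul, Finset.sum_mul, ← Finset.sum_sub_distrib]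
        refine Finset.sum_le_sum fun i hi => ?_
        have := mul_le_mul_of_nonneg_left (hbl i hi)
          (show (0:ℝ) ≤ (i.1 : ℝ) * G.rho ^ (i.1 - 1) by positivity)
        calc _ = (i.1 : ℝ) * G.rho ^ (i.1 - 1) * (G.tot i * n2 - C2 * D) := by ring
          _ ≤ _ := this
      set S1 := ∑ i ∈ G.S, (i.1 : ℝ) * G.rho ^ (i.1 - 1) * b i with hS1
      set S2 := ∑ i ∈ G.S, ((z ^ i.1).im - (i.1 : ℝ) * G.rho ^ (i.1 - 1) * y) * b i with hS2
      have e4 : |y| * S1 ≤ |A.im| + |S2| := by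
        have : y * S1 = -A.im - S2 := by rw [e1]; ring
        calc |y| * S1 ≤ |y| * |S1| := mul_le_mul_of_nonneg_left (le_abs_self _) (abs_nonneg _)
          _ = |y * S1| := (abs_mul _ _).symm
          _ = |-A.im - S2| := by rw [this]
          _ ≤ |-A.im| + |S2| := abs_sub _ _
          _ = _ := by rw [abs_neg]
      have hyn := abs_nonneg y
      have e5 : |y| * (c2 * n2 - C4 * D) ≤ |y| * S1 := mul_le_mul_of_nonneg_left e3 hyn
      have e6 : C3 * del * |y| * n2 ≤ 2 * |y| * n2 := by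
        apply mul_le_mul_of_nonneg_right _ hn2n
        exact mul_le_mul_of_nonneg_right hdel3 hyn
      have e7 : |y| * (4 * n2) ≤ |y| * (c2 * n2) :=
        mul_le_mul_of_nonneg_left (mul_le_mul_of_nonneg_right hc2n hn2n) hyn
      linarith
    have hyn := abs_nonneg y
    -- combine
    have k1 : G.rho / 14 * D ≤ x * Q := by
      have : (G.rho / 2) * (D / 7) ≤ x * Q :=
        mul_le_mul hx0 (by linarith) (by positivity) (by linarith)
      linarith
    have k2 : th * (|y| * (2 * n2 - C4 * D)) ≤ th * ‖A‖ :=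
      mul_le_mul_of_nonneg_left (him2.trans hAim) hth0.le
    have k3 : th * (|y| * (C4 * D)) ≤ G.rho / 28 * D := by
      have : (th * C4) * |y| ≤ 1 / 28 * G.rho :=
        mul_le_mul hth2 hyr hyn (by norm_num)
      have := mul_le_mul_of_nonneg_right this hDn
      linarith
    have k4 : 4 * (G.rho - x) * n2 + x * Q ≤ ‖A‖ := h1.trans hAre
    have k5 : 4 * (G.rho - x) * n2 + 2 * th * |y| * n2 + G.rho / 28 * D ≤ 2 * ‖A‖ := by
      have hAn := norm_nonneg A
      have : th * ‖A‖ ≤ 1 * ‖A‖ := mul_le_mul_of_nonneg_right (by linarith) hAn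
      linarith
    have k6 : 2 * th * del * n2 ≤ 4 * (G.rho - x) * n2 + 2 * th * |y| * n2 := by
      have : 2 * th * del ≤ 4 * (G.rho - x) + 2 * th * |y| := by
        have h3 : 2 * th * del ≤ 2 * th * ((G.rho - x) + |y|) :=
          mul_le_mul_of_nonneg_left hdel4 (by linarith)
        have h4 : 0 ≤ G.rho - x := by linarith
        have h5 : 2 * th * (G.rho - x) ≤ 4 * (G.rho - x) :=
          mul_le_mul_of_nonneg_right (by linarith) h4
        have h6 : 2 * th * ((G.rho - x) + |y|) = 2 * th * (G.rho - x) + 2 * th * |y| := by ring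
        linarith
      have := mul_le_mul_of_nonneg_right this hn2n
      linarith
    have k7 : c * (del * n2) ≤ th * (del * n2) :=
      mul_le_mul_of_nonneg_right hc_2 (mul_nonneg hdeln hn2n)
    have k8 : c * D ≤ G.rho / 56 * D := mul_le_mul_of_nonneg_right hc_3 hDn
    rw [mul_add]
    linarith

end Pool.Agent.Gap.H62

namespace Pool.Agent.Gap

/-- MODULE C -/
theorem C (h2 : C2_Stmt) : C_Stmt := fun G => H62.coercive G h2

end Pool.Agent.Gap
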