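import Pool.Agent.Lib_helper79.Gap.Defs2

set_option autoImplicit false

open Finset Filter Topology

namespace Pool.Agent.Gap.H62.BAL

section sol
variable {B : ℕ → ℤ → Polynomial ℝ} (hB : IsSol stair cap1 B)
include hB

lemma B_zero {n : ℕ} {g : ℤ} (hg : g < 1) : B n g = 0 := hB.zero n g hg

lemma B_zero_time (g : ℤ) : B 0 g = 0 := by
  rcases lt_or_ge g 1 with h | h
  · exact hB.zero 0 g h
  · rw [hB.step 0 g h]
    have hS : stair.S = {(1, 1)} := rfl
    rw [hS, Finset.sum_singleton]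
    simp [cap1]

lemma B_succ (n : ℕ) {g : ℤ} (hg : 1 ≤ g) :
    B (n + 1) g = Polynomial.C (cap1 (n + 1) g)
      + (Polynomial.C 2 * Polynomial.X ^ (g + g).toNat * B n g
        + Polynomial.X ^ (g + (g + 1)).toNat * B n (g + 1)
        + Polynomial.X ^ (g + (g - 1)).toNat * B n (g - 1)) := by
  rw [hB.step (n + 1) g hg]
  have hS : stair.S = {(1, 1)} := rfl
  rw [hS, Finset.sum_singleton]
  simp only [Nat.le_add_left, if_true, Nat.add_sub_cancel]
  congr 1
  have hR : (stair.R : ℤ) = 1 := rfl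
  rw [hR]
  have hI : Icc (g - 1) (g + 1) = {g, g + 1, g - 1} := by
    ext x
    rw [Finset.mem_Icc, Finset.mem_insert, Finset.mem_insert, Finset.mem_singleton]
    omega
  rw [hI, Finset.sum_insert, Finset.sum_insert, Finset.sum_singleton]
  · have hK : ∀ g' : ℤ, stair.K (1, 1) g g' = if 1 ≤ g ∧ 1 ≤ g' then nnT (g' - g) else 0 :=
      fun _ => rfl
    have hn0 : nnT 0 = 2 := by simp [nnT]
    have hn1 : nnT 1 = 1 := by simp [nnT]
    have hn2 : nnT (-1) = 1 := by simp [nnT]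
    rw [hK, hK, hK, if_pos ⟨hg, hg⟩, if_pos ⟨hg, by omega⟩, sub_self, hn0, add_sub_cancel_left, hn1]
    have e1 : ∀ s : ℤ, (((((1, 1) : ℕ × ℕ).2 : ℕ) : ℤ) * s).toNat = s.toNat := by
      intro s
      simp
    rw [e1, e1, e1, Polynomial.C_1, one_mul]
    rw [add_assoc]
    congr 2
    by_cases h1 : 1 ≤ g - 1
    · rw [if_pos ⟨hg, h1⟩, sub_sub_cancel_left, hn2, Polynomial.C_1, one_mul]
    · rw [B_zero hB (by omega : g - 1 < 1), mul_zero, mul_zero]
  · rw [Finset.mem_singleton]; omega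
  · rw [Finset.mem_insert, Finset.mem_singleton]; omega

end sol

/-- values at one -/
noncomputable def bn (B : ℕ → ℤ → Polynomial ℝ) (n g : ℕ) : ℝ := (B n (g : ℤ)).eval 1

/-- derivatives at one -/
noncomputable def dn (B : ℕ → ℤ → Polynomial ℝ) (n g : ℕ) : ℝ := (B n (g : ℤ)).derivative.eval 1

section sol
variable {B : ℕ → ℤ → Polynomial ℝ} (hB : IsSol stair cap1 B)
include hB

lemma bn_zero (n : ℕ) : bn B n 0 = 0 := by
  unfold bn
  rw [B_zero hB (by simp)]
  simp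

lemma dn_zero (n : ℕ) : dn B n 0 = 0 := by
  unfold dn
  rw [B_zero hB (by simp)]
  simp

lemma bn_zero_time (g : ℕ) : bn B 0 g = 0 := by
  unfold bn
  rw [B_zero_time hB]
  simp

lemma dn_zero_time (g : ℕ) : dn B 0 g = 0 := by
  unfold dn
  rw [B_zero_time hB]
  simp

lemma bn_one (g : ℕ) : bn B 1 (g + 1) = if g = 0 then 1 else 0 := by
  unfold bn
  rw [B_succ hB 0 (by push_cast; omega), B_zero_time hB, B_zero_time hB, B_zero_time hB]
  simp only [mul_zero, add_zero, Polynomial.eval_C, zero_add, cap1]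
  by_cases h : g = 0
  · subst h; simp
  · rw [if_neg h, if_neg]
    push_cast
    omega

lemma bn_succ (n g : ℕ) : bn B (n + 2) (g + 1)
    = 2 * bn B (n + 1) (g + 1) + bn B (n + 1) (g + 2) + bn B (n + 1) g := by
  unfold bn
  have e1 : ((g + 1 : ℕ) : ℤ) + 1 = ((g + 2 : ℕ) : ℤ) := by push_cast; ring
  have e2 : ((g + 1 : ℕ) : ℤ) - 1 = ((g : ℕ) : ℤ) := by push_cast; ring
  rw [B_succ hB (n + 1) (by push_cast; omega), e1, e2]
  have : cap1 (n + 1 + 1) ((g + 1 : ℕ) : ℤ) = 0 := by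
    unfold cap1
    rw [if_neg]
    omega
  rw [this]
  simp only [Polynomial.eval_add, Polynomial.eval_mul, Polynomial.eval_pow, Polynomial.eval_X,
    Polynomial.eval_C, one_pow, one_mul, mul_one, zero_add]

lemma dn_succ (n g : ℕ) : dn B (n + 1) (g + 1)
    = 2 * (2 * ((g : ℝ) + 1) * bn B n (g + 1) + dn B n (g + 1))
      + ((2 * (g : ℝ) + 3) * bn B n (g + 2) + dn B n (g + 2))
      + ((2 * (g : ℝ) + 1) * bn B n g + dn B n g) := by
  unfold bn dn
  have e1 : ((g + 1 : ℕ) : ℤ) + 1 = ((g + 2 : ℕ) : ℤ) := by push_cast; ring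
  have e2 : ((g + 1 : ℕ) : ℤ) - 1 = ((g : ℕ) : ℤ) := by push_cast; ring
  rw [B_succ hB n (by push_cast; omega), e1, e2]
  have t1 : (((g + 1 : ℕ) : ℤ) + ((g + 1 : ℕ) : ℤ)).toNat = 2 * (g + 1) := by omega
  have t2 : (((g + 1 : ℕ) : ℤ) + ((g + 2 : ℕ) : ℤ)).toNat = 2 * g + 3 := by omega
  have t3 : (((g + 1 : ℕ) : ℤ) + ((g : ℕ) : ℤ)).toNat = 2 * g + 1 := by omega
  rw [t1, t2, t3]
  simp only [Polynomial.derivative_add, Polynomial.derivative_mul, Polynomial.derivative_C,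
    Polynomial.derivative_X_pow, Polynomial.eval_add, Polynomial.eval_mul, Polynomial.eval_pow,
    Polynomial.eval_X, Polynomial.eval_C, one_pow, one_mul, mul_one, zero_add, zero_mul]
  push_cast
  ring

lemma bn_supp (n : ℕ) : ∀ g : ℕ, n < g → bn B n g = 0 := by
  induction n with
  | zero => intro g _; exact bn_zero_time hB g
  | succ n ih =>
    intro g hg
    obtain ⟨h, rfl⟩ : ∃ h, g = h + 1 := ⟨g - 1, by omega⟩
    rcases n with _ | n
    · rw [bn_one hB, if_neg (by omega)]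
    · rw [bn_succ hB, ih (h + 1) (by omega), ih (h + 2) (by omega), ih h (by omega)]
      ring

lemma dn_supp (n : ℕ) : ∀ g : ℕ, n < g → dn B n g = 0 := by
  induction n with
  | zero => intro g _; exact dn_zero_time hB g
  | succ n ih =>
    intro g hg
    obtain ⟨h, rfl⟩ : ∃ h, g = h + 1 := ⟨g - 1, by omega⟩
    rw [dn_succ hB, ih (h + 1) (by omega), ih (h + 2) (by omega), ih h (by omega),
      bn_supp hB n (h + 1) (by omega), bn_supp hB n (h + 2) (by omega), bn_supp hB n h (by omega)]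
    ring

/-- explicit formula -/
lemma bn_formula (n : ℕ) : ∀ g : ℕ, bn B (n + 1) g
    = ((2 * n + 1).choose (n + g) : ℝ) - ((2 * n + 1).choose (n + g + 1) : ℝ) := by
  induction n with
  | zero =>
    intro g
    rcases g with _ | g
    · rw [bn_zero hB]; simp
    · rw [bn_one hB]
      rcases g with _ | g
      · simp
      · rw [if_neg (by omega), Nat.choose_eq_zero_of_lt (by omega),
          Nat.choose_eq_zero_of_lt (by omega)]
        simp
  | succ n ih =>
    intro g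
    have hsym : (2 * (n + 1) + 1).choose (n + 1) = (2 * (n + 1) + 1).choose (n + 1 + 1) :=
      Nat.choose_symm_of_eq_add (by omega)
    rcases g with _ | g
    · rw [bn_zero hB, add_zero, hsym, sub_self]
    · rw [bn_succ hB, ih (g + 1), ih (g + 2), ih g]
      have p1 : (2 * (n + 1) + 1).choose (n + 1 + (g + 1))
          = (2 * n + 1).choose (n + g) + 2 * (2 * n + 1).choose (n + g + 1)
            + (2 * n + 1).choose (n + g + 2) := by
        have e : 2 * (n + 1) + 1 = (2 * n + 1 + 1) + 1 := by ring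
        have e' : n + 1 + (g + 1) = (n + g + 1) + 1 := by ring
        rw [e, e', Nat.choose_succ_succ', Nat.choose_succ_succ' (2 * n + 1) (n + g),
          Nat.choose_succ_succ' (2 * n + 1) (n + g + 1)]
        ring
      have p2 : (2 * (n + 1) + 1).choose (n + 1 + (g + 1) + 1)
          = (2 * n + 1).choose (n + g + 1) + 2 * (2 * n + 1).choose (n + g + 2)
            + (2 * n + 1).choose (n + g + 3) := by
        have e : 2 * (n + 1) + 1 = (2 * n + 1 + 1) + 1 := by ring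
        have e' : n + 1 + (g + 1) + 1 = (n + g + 2) + 1 := by ring
        rw [e, e', Nat.choose_succ_succ', Nat.choose_succ_succ' (2 * n + 1) (n + g + 1),
          Nat.choose_succ_succ' (2 * n + 1) (n + g + 2)]
        ring
      rw [p1, p2]
      have e3 : n + (g + 1) = n + g + 1 := by ring
      have e4 : n + (g + 2) = n + g + 2 := by ring
      rw [e3, e4]
      push_cast
      ring

/-- product form -/
lemma bn_mul (n g : ℕ) : bn B (n + 1) g * ((n : ℝ) + g + 1)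
    = ((2 * n + 1).choose (n + g) : ℝ) * (2 * g) := by
  rw [bn_formula hB]
  have h := Nat.choose_succ_right_eq (2 * n + 1) (n + g)
  rcases le_or_gt g (n + 1) with hg | hg
  · have e : 2 * n + 1 - (n + g) = n + 1 - g := by omega
    rw [e] at h
    have h' : ((2 * n + 1).choose (n + g + 1) : ℝ) * ((n : ℝ) + g + 1)
        = ((2 * n + 1).choose (n + g) : ℝ) * ((n : ℝ) + 1 - g) := by
      have := congrArg (fun x : ℕ => (x : ℝ)) h
      simp only [Nat.cast_mul, Nat.cast_add, Nat.cast_one] at this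
      rw [this, Nat.cast_sub hg]
      push_cast
      ring
    rw [sub_mul, h']
    ring
  · rw [Nat.choose_eq_zero_of_lt (by omega : 2 * n + 1 < n + g),
      Nat.choose_eq_zero_of_lt (by omega : 2 * n + 1 < n + g + 1)]
    simp

lemma bn_nonneg (n g : ℕ) : 0 ≤ bn B n g := by
  rcases n with _ | n
  · rw [bn_zero_time hB]
  · have h := bn_mul hB n g
    have h2 : (0:ℝ) < (n : ℝ) + g + 1 := by positivity
    have h3 : 0 ≤ bn B (n + 1) g * ((n : ℝ) + g + 1) := by rw [h]; positivity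
    exact nonneg_of_mul_nonneg_left h3 h2

lemma dn_nonneg (n : ℕ) : ∀ g : ℕ, 0 ≤ dn B n g := by
  induction n with
  | zero => intro g; rw [dn_zero_time hB]
  | succ n ih =>
    intro g
    rcases g with _ | g
    · rw [dn_zero hB]
    · rw [dn_succ hB]
      have h1 := bn_nonneg hB n (g + 1)
      have h2 := bn_nonneg hB n (g + 2)
      have h3 := bn_nonneg hB n g
      have h4 := ih (g + 1)
      have h5 := ih (g + 2)
      have h6 := ih g
      positivity

end sol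

/-! ### Pairing -/

/-- pairing of two functions on `1..M` -/
noncomputable def pr (M : ℕ) (f h : ℕ → ℝ) : ℝ := ∑ g ∈ range M, f (g + 1) * h (g + 1)

/-- symmetry of the kernel -/
lemma pr_symm {M : ℕ} {f h : ℕ → ℝ} (hf0 : f 0 = 0) (hh0 : h 0 = 0) (hf : f (M + 1) = 0)
    (hh : h (M + 1) = 0) :
    ∑ g ∈ range M, (2 * f (g + 1) + f (g + 2) + f g) * h (g + 1)
      = ∑ g ∈ range M, f (g + 1) * (2 * h (g + 1) + h (g + 2) + h g) := by
  have h1 := Finset.sum_range_sub (fun g => f g * h (g + 1)) M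
  have h2 := Finset.sum_range_sub (fun g => f (g + 1) * h g) M
  simp only [hf0, hh0, hf, hh, mul_zero, zero_mul, sub_zero] at h1 h2
  rw [← sub_eq_zero, ← Finset.sum_sub_distrib]
  have : ∑ g ∈ range M, ((2 * f (g + 1) + f (g + 2) + f g) * h (g + 1)
      - f (g + 1) * (2 * h (g + 1) + h (g + 2) + h g))
      = ∑ g ∈ range M, (f (g + 1 + 1) * h (g + 1) - f (g + 1) * h g)
        - ∑ g ∈ range M, (f (g + 1) * h (g + 1 + 1) - f g * h (g + 1)) := by
    rw [← Finset.sum_sub_distrib]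
    refine Finset.sum_congr rfl fun g _ => ?_
    ring
  rw [this, h1, h2, sub_zero]

section sol
variable {B : ℕ → ℤ → Polynomial ℝ} (hB : IsSol stair cap1 B)
include hB

lemma pr_bn (M p : ℕ) : ∀ q : ℕ, p + q < M →
    pr M (bn B (p + 1)) (bn B (q + 1)) = bn B (p + q + 1) 1 := by
  induction p with
  | zero =>
    intro q hq
    unfold pr
    rw [Finset.sum_eq_single 0]
    · rw [bn_one hB, if_pos rfl, one_mul]
      simp only [zero_add]
    · intro g _ hg
      rw [bn_one hB, if_neg hg, zero_mul]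
    · intro h
      exact absurd (Finset.mem_range.2 (by omega)) h
  | succ p ih =>
    intro q hq
    have h1 := ih (q + 1) (by omega)
    have e : p + (q + 1) + 1 = p + 1 + q + 1 := by ring
    rw [e] at h1
    rw [← h1]
    unfold pr
    have h2 := pr_symm (M := M) (f := bn B (p + 1)) (h := bn B (q + 1)) (bn_zero hB _)
      (bn_zero hB _) (bn_supp hB _ _ (by omega)) (bn_supp hB _ _ (by omega))
    simp only [← bn_succ hB] at h2
    exact h2

/-- weighted pairing -/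
noncomputable def W (M : ℕ) (B : ℕ → ℤ → Polynomial ℝ) (p q : ℕ) : ℝ :=
  ∑ g ∈ range M, ((g : ℝ) + 1) * (bn B (p + 1) (g + 1) * bn B (q + 1) (g + 1))

lemma W_nonneg (M p q : ℕ) : 0 ≤ W M B p q := by
  apply Finset.sum_nonneg
  intro g _
  have h1 := bn_nonneg hB (p + 1) (g + 1)
  have h2 := bn_nonneg hB (q + 1) (g + 1)
  positivity

lemma pr_dn_step (M p q : ℕ) (h : p + q + 1 < M) :
    W M B p (q + 1) + pr M (bn B (p + 2)) (dn B (q + 1)) ≤ pr M (bn B (p + 1)) (dn B (q + 2)) := by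
  have h2 := pr_symm (M := M) (f := bn B (p + 1)) (h := dn B (q + 1)) (bn_zero hB _)
      (dn_zero hB _) (bn_supp hB _ _ (by omega)) (dn_supp hB _ _ (by omega))
  simp only [← bn_succ hB] at h2
  unfold pr W
  rw [h2, ← Finset.sum_add_distrib]
  refine Finset.sum_le_sum fun g _ => ?_
  rw [dn_succ hB (q + 1) g, bn_succ hB q g]
  have h3 := bn_nonneg hB (p + 1) (g + 1)
  have h4 := bn_nonneg hB (q + 1) (g + 1)
  have h5 := bn_nonneg hB (q + 1) (g + 2)
  have h6 := bn_nonneg hB (q + 1) g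
  have e : (((g : ℝ) + 1) * (bn B (p + 1) (g + 1)
        * (2 * bn B (q + 1) (g + 1) + bn B (q + 1) (g + 2) + bn B (q + 1) g))
      + bn B (p + 1) (g + 1) * (2 * dn B (q + 1) (g + 1) + dn B (q + 1) (g + 2) + dn B (q + 1) g))
      = bn B (p + 1) (g + 1) * (((g : ℝ) + 1) * (2 * bn B (q + 1) (g + 1) + bn B (q + 1) (g + 2)
        + bn B (q + 1) g) + (2 * dn B (q + 1) (g + 1) + dn B (q + 1) (g + 2) + dn B (q + 1) g)) := by
    ring
  rw [e]
  apply mul_le_mul_of_nonneg_left _ h3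
  have hg : (0:ℝ) ≤ g := Nat.cast_nonneg g
  have m1 : ((g : ℝ) + 1) * (2 * bn B (q + 1) (g + 1)) ≤ 2 * (2 * ((g : ℝ) + 1) * bn B (q + 1) (g + 1)) := by
    nlinarith [mul_nonneg (show 0 ≤ (g : ℝ) + 1 by linarith) h4]
  have m2 : ((g : ℝ) + 1) * bn B (q + 1) (g + 2) ≤ (2 * (g : ℝ) + 3) * bn B (q + 1) (g + 2) :=
    mul_le_mul_of_nonneg_right (by linarith) h5
  have m3 : ((g : ℝ) + 1) * bn B (q + 1) g ≤ (2 * (g : ℝ) + 1) * bn B (q + 1) g :=
    mul_le_mul_of_nonneg_right (by linarith) h6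
  linarith

lemma pr_dn_sum (M : ℕ) (q : ℕ) : ∀ p : ℕ, p + q < M →
    ∑ j ∈ range q, W M B (p + j) (q - j) ≤ pr M (bn B (p + 1)) (dn B (q + 1)) := by
  induction q with
  | zero =>
    intro p _
    rw [Finset.range_zero, Finset.sum_empty]
    apply Finset.sum_nonneg
    intro g _
    exact mul_nonneg (bn_nonneg hB _ _) (dn_nonneg hB _ _)
  | succ q ih =>
    intro p hp
    rw [Finset.sum_range_succ']
    have h1 := ih (p + 1) (by omega)
    have h2 := pr_dn_step hB M p q (by omega)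
    have h3 : ∑ j ∈ range q, W M B (p + (j + 1)) (q + 1 - (j + 1))
        = ∑ j ∈ range q, W M B (p + 1 + j) (q - j) := by
      refine Finset.sum_congr rfl fun j _ => ?_
      congr 1
      · ring
      · omega
    rw [h3, add_zero, Nat.sub_zero]
    linarith

lemma dn_lower (M q : ℕ) (hM : q < M) :
    ∑ j ∈ range q, W M B j (q - j) ≤ dn B (q + 1) 1 := by
  have h := pr_dn_sum hB M q 0 (by omega)
  simp only [zero_add] at h
  refine h.trans (le_of_eq ?_)
  unfold pr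
  rw [Finset.sum_eq_single 0]
  · rw [bn_one hB, if_pos rfl, one_mul]
  · intro g _ hg
    rw [bn_one hB, if_neg hg, zero_mul]
  · intro h
    exact absurd (Finset.mem_range.2 (by omega)) h

end sol

/-! ### Central binomial coefficients -/

lemma cb_rec (m : ℕ) : (Nat.centralBinom (m + 1) : ℝ) * ((m : ℝ) + 1)
    = 2 * (2 * m + 1) * Nat.centralBinom m := by
  have h := Nat.succ_mul_centralBinom_succ m
  have := congrArg (fun x : ℕ => (x : ℝ)) h
  push_cast at this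
  linarith

lemma cb_lower (m : ℕ) (hm : 1 ≤ m) : (16 : ℝ) ^ m ≤ (Nat.centralBinom m : ℝ) ^ 2 * (4 * m) := by
  induction m, hm using Nat.le_induction with
  | base => norm_num [Nat.centralBinom]
  | succ m hm ih =>
    have hm0 : (1:ℝ) ≤ m := by exact_mod_cast hm
    have h := cb_rec m
    set x := (Nat.centralBinom m : ℝ)
    set y := (Nat.centralBinom (m + 1) : ℝ)
    have h2 : y ^ 2 * ((m : ℝ) + 1) ^ 2 = 4 * (2 * m + 1) ^ 2 * x ^ 2 := by
      rw [← mul_pow, h]; ring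
    have h3 : (16 : ℝ) ^ (m + 1) * ((m : ℝ) + 1) ≤ y ^ 2 * (4 * ((m : ℝ) + 1)) * ((m : ℝ) + 1) := by
      calc (16 : ℝ) ^ (m + 1) * ((m : ℝ) + 1) = 16 * ((m : ℝ) + 1) * 16 ^ m := by ring
        _ ≤ 16 * ((m : ℝ) + 1) * (x ^ 2 * (4 * m)) :=
            mul_le_mul_of_nonneg_left ih (by positivity)
        _ ≤ 4 * (4 * (2 * m + 1) ^ 2 * x ^ 2) := by
            have : 0 ≤ x ^ 2 := sq_nonneg x
            nlinarith
        _ = 4 * (y ^ 2 * ((m : ℝ) + 1) ^ 2) := by rw [h2]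
        _ = _ := by ring
    have h4 := le_of_mul_le_mul_right h3 (by positivity)
    push_cast
    exact h4

lemma cb_upper (m : ℕ) : (Nat.centralBinom m : ℝ) ^ 2 * (2 * m + 1) ≤ (16 : ℝ) ^ m := by
  induction m with
  | zero => norm_num [Nat.centralBinom]
  | succ m ih =>
    have hm0 : (0:ℝ) ≤ m := Nat.cast_nonneg m
    have h := cb_rec m
    set x := (Nat.centralBinom m : ℝ)
    set y := (Nat.centralBinom (m + 1) : ℝ)
    have h2 : y ^ 2 * ((m : ℝ) + 1) ^ 2 = 4 * (2 * m + 1) ^ 2 * x ^ 2 := by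
      rw [← mul_pow, h]; ring
    have h3 : (y ^ 2 * (2 * ((m : ℝ) + 1) + 1)) * ((m : ℝ) + 1) ^ 2
        ≤ (16 : ℝ) ^ (m + 1) * ((m : ℝ) + 1) ^ 2 := by
      calc (y ^ 2 * (2 * ((m : ℝ) + 1) + 1)) * ((m : ℝ) + 1) ^ 2
          = (y ^ 2 * ((m : ℝ) + 1) ^ 2) * (2 * m + 3) := by ring
        _ = (x ^ 2 * (2 * m + 1)) * (4 * (2 * m + 1) * (2 * m + 3)) := by rw [h2]; ring
        _ ≤ 16 ^ m * (4 * (2 * m + 1) * (2 * m + 3)) :=
            mul_le_mul_of_nonneg_right ih (by positivity)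
        _ ≤ 16 ^ m * (16 * ((m : ℝ) + 1) ^ 2) := by
            apply mul_le_mul_of_nonneg_left _ (by positivity)
            nlinarith
        _ = _ := by ring
    have h4 := le_of_mul_le_mul_right h3 (by positivity)
    push_cast
    exact h4

lemma cb_choose (n : ℕ) : (Nat.centralBinom (n + 1) : ℝ) = 2 * ((2 * n + 1).choose n : ℝ) := by
  have h : Nat.centralBinom (n + 1) = 2 * (2 * n + 1).choose n := by
    rw [Nat.centralBinom_eq_two_mul_choose]
    have e : 2 * (n + 1) = (2 * n + 1) + 1 := by ring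
    rw [e, Nat.choose_succ_succ', Nat.choose_symm_of_eq_add (show 2 * n + 1 = (n + 1) + n by ring)]
    ring
  rw [h]
  push_cast
  ring

section sol
variable {B : ℕ → ℤ → Polynomial ℝ} (hB : IsSol stair cap1 B)
include hB

lemma bn_upper (n g : ℕ) : bn B (n + 1) g * ((n : ℝ) + 1) ≤ Nat.centralBinom (n + 1) * g := by
  have h1 := bn_mul hB n g
  have h2 := bn_nonneg hB (n + 1) g
  have h3 : ((2 * n + 1).choose (n + g) : ℝ) ≤ ((2 * n + 1).choose n : ℝ) := by
    have := Nat.choose_le_middle (n + g) (2 * n + 1)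
    have e : (2 * n + 1) / 2 = n := by omega
    rw [e] at this
    exact_mod_cast this
  have hg : (0:ℝ) ≤ g := Nat.cast_nonneg g
  calc bn B (n + 1) g * ((n : ℝ) + 1) ≤ bn B (n + 1) g * ((n : ℝ) + g + 1) :=
        mul_le_mul_of_nonneg_left (by linarith) h2
    _ = ((2 * n + 1).choose (n + g) : ℝ) * (2 * g) := h1
    _ ≤ ((2 * n + 1).choose n : ℝ) * (2 * g) := mul_le_mul_of_nonneg_right h3 (by positivity)
    _ = _ := by rw [cb_choose]; ring

lemma bn_catalan (n : ℕ) : bn B (n + 1) 1 * ((n : ℝ) + 2) = Nat.centralBinom (n + 1) := by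
  have h1 := bn_mul hB n 1
  rw [cb_choose]
  have h2 : (2 * n + 1).choose (n + 1) = (2 * n + 1).choose n :=
    Nat.choose_symm_of_eq_add (by ring)
  rw [h2] at h1
  push_cast at h1
  linarith

end sol

section sol
variable {B : ℕ → ℤ → Polynomial ℝ} (hB : IsSol stair cap1 B)
include hB

/-- lower bound of the partition function: `a = b_{q+1}(1)`, `n = q + 2` -/
lemma a_lower (q : ℕ) : (4 : ℝ) ^ (q + 2) ≤
    8 * (((q : ℝ) + 2) * Real.sqrt ((q : ℝ) + 2)) * bn B (q + 1) 1 := by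
  have h1 := bn_catalan hB q
  have h2 := cb_lower (q + 1) (by omega)
  set x := (Nat.centralBinom (q + 1) : ℝ) with hx
  have hx0 : 0 ≤ x := Nat.cast_nonneg _
  set s := Real.sqrt ((q : ℝ) + 2) with hs
  have hs0 : 0 ≤ s := Real.sqrt_nonneg _
  have hss : s ^ 2 = (q : ℝ) + 2 := Real.sq_sqrt (by positivity)
  have h3 : (4 : ℝ) ^ (q + 1) ≤ 2 * s * x := by
    refine (abs_le_of_sq_le_sq' ?_ (by positivity)).2
    have e : ((4 : ℝ) ^ (q + 1)) ^ 2 = 16 ^ (q + 1) := by
      rw [← pow_mul, mul_comm, pow_mul]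
      norm_num
    rw [e]
    refine h2.trans ?_
    have : (2 * s * x) ^ 2 = 4 * s ^ 2 * x ^ 2 := by ring
    rw [this, hss]
    push_cast
    nlinarith [sq_nonneg x]
  calc (4 : ℝ) ^ (q + 2) = 4 * 4 ^ (q + 1) := by ring
    _ ≤ 4 * (2 * s * x) := mul_le_mul_of_nonneg_left h3 (by norm_num)
    _ = 8 * (((q : ℝ) + 2) * s) * bn B (q + 1) 1 := by rw [← h1]; ring

/-- upper bound of the pair weights in the middle third -/
lemma pair_upper (q j g : ℕ) (h1 : q + 2 ≤ 3 * (j + 1)) (h2 : 3 * (j + 1) ≤ 2 * (q + 2))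
    (hj : j ≤ q) : bn B (j + 1) g * bn B (q - j + 1) g
      ≤ 5 * (g : ℝ) ^ 2 * 4 ^ (q + 2) / ((q : ℝ) + 2) ^ 3 := by
  have u1 := bn_upper hB j g
  have u2 := bn_upper hB (q - j) g
  have c1 := cb_upper (j + 1)
  have c2 := cb_upper (q - j + 1)
  set x := (Nat.centralBinom (j + 1) : ℝ) with hx
  set y := (Nat.centralBinom (q - j + 1) : ℝ) with hy
  set b1 := bn B (j + 1) g with hb1
  set b2 := bn B (q - j + 1) g with hb2
  have hb1n : 0 ≤ b1 := bn_nonneg hB _ _
  have hb2n : 0 ≤ b2 := bn_nonneg hB _ _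
  have hx0 : 0 ≤ x := Nat.cast_nonneg _
  have hy0 : 0 ≤ y := Nat.cast_nonneg _
  obtain ⟨m, hm⟩ : ∃ m : ℝ, m = (j : ℝ) + 1 := ⟨_, rfl⟩
  obtain ⟨m', hm'⟩ : ∃ m' : ℝ, m' = ((q - j : ℕ) : ℝ) + 1 := ⟨_, rfl⟩
  obtain ⟨n, hn⟩ : ∃ n : ℝ, n = (q : ℝ) + 2 := ⟨_, rfl⟩
  have hsum : m + m' = n := by
    rw [hm, hm', hn, Nat.cast_sub hj]
    ring
  have hm0 : 0 < m := by rw [hm]; positivity
  have hm0' : 0 < m' := by rw [hm']; positivity
  have hn0 : 0 < n := by rw [hn]; positivity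
  have hml : n ≤ 3 * m := by
    rw [hn, hm]
    exact_mod_cast h1
  have hmu : 3 * m ≤ 2 * n := by
    rw [hn, hm]
    exact_mod_cast h2
  have hmm : 2 * n ^ 2 ≤ 9 * (m * m') := by
    have : m' = n - m := by linarith
    rw [this]
    nlinarith [mul_nonneg (show 0 ≤ 3 * m - n by linarith) (show 0 ≤ 2 * n - 3 * m by linarith)]
  push_cast at c1 c2
  rw [← hm] at u1 c1
  rw [← hm'] at u2 c2
  rw [← hn]
  rw [le_div_iff₀ (by positivity)]
  have hg : (0:ℝ) ≤ g := Nat.cast_nonneg g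
  refine (abs_le_of_sq_le_sq' ?_ (by positivity)).2
  -- squares
  have s1 : (b1 * m) ^ 2 ≤ (x * g) ^ 2 := pow_le_pow_left₀ (by positivity) u1 2
  have s2 : (b2 * m') ^ 2 ≤ (y * g) ^ 2 := pow_le_pow_left₀ (by positivity) u2 2
  have t1 : x ^ 2 * (2 * m) ≤ 16 ^ (j + 1) := by
    refine le_trans ?_ c1
    apply mul_le_mul_of_nonneg_left _ (sq_nonneg x)
    linarith
  have t2 : y ^ 2 * (2 * m') ≤ 16 ^ (q - j + 1) := by
    refine le_trans ?_ c2
    apply mul_le_mul_of_nonneg_left _ (sq_nonneg y)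
    linarith
  have e16 : (16 : ℝ) ^ (j + 1) * 16 ^ (q - j + 1) = 16 ^ (q + 2) := by
    rw [← pow_add]
    congr 1
    omega
  have r1 : b1 ^ 2 * (m ^ 2 * (2 * m)) ≤ 16 ^ (j + 1) * (g : ℝ) ^ 2 := by
    calc b1 ^ 2 * (m ^ 2 * (2 * m)) = (b1 * m) ^ 2 * (2 * m) := by ring
      _ ≤ (x * g) ^ 2 * (2 * m) := mul_le_mul_of_nonneg_right s1 (by positivity)
      _ = (x ^ 2 * (2 * m)) * (g : ℝ) ^ 2 := by ring
      _ ≤ 16 ^ (j + 1) * (g : ℝ) ^ 2 := mul_le_mul_of_nonneg_right t1 (by positivity)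
  have r2 : b2 ^ 2 * (m' ^ 2 * (2 * m')) ≤ 16 ^ (q - j + 1) * (g : ℝ) ^ 2 := by
    calc b2 ^ 2 * (m' ^ 2 * (2 * m')) = (b2 * m') ^ 2 * (2 * m') := by ring
      _ ≤ (y * g) ^ 2 * (2 * m') := mul_le_mul_of_nonneg_right s2 (by positivity)
      _ = (y ^ 2 * (2 * m')) * (g : ℝ) ^ 2 := by ring
      _ ≤ _ := mul_le_mul_of_nonneg_right t2 (by positivity)
  have r3 : (b1 * b2) ^ 2 * (4 * (m * m') ^ 3) ≤ 16 ^ (q + 2) * (g : ℝ) ^ 4 := by
    have := mul_le_mul r1 r2 (by positivity) (by positivity)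
    calc (b1 * b2) ^ 2 * (4 * (m * m') ^ 3)
        = b1 ^ 2 * (m ^ 2 * (2 * m)) * (b2 ^ 2 * (m' ^ 2 * (2 * m'))) := by ring
      _ ≤ 16 ^ (j + 1) * (g : ℝ) ^ 2 * (16 ^ (q - j + 1) * (g : ℝ) ^ 2) := this
      _ = (16 ^ (j + 1) * 16 ^ (q - j + 1)) * (g : ℝ) ^ 4 := by ring
      _ = _ := by rw [e16]
  have r4 : 8 * n ^ 6 ≤ 729 * (m * m') ^ 3 := by
    have := pow_le_pow_left₀ (by positivity) hmm 3
    calc 8 * n ^ 6 = (2 * n ^ 2) ^ 3 := by ring
      _ ≤ (9 * (m * m')) ^ 3 := this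
      _ = _ := by ring
  have e4 : (5 * (g : ℝ) ^ 2 * 4 ^ (q + 2)) ^ 2 = 25 * (16 ^ (q + 2) * (g : ℝ) ^ 4) := by
    have : ((4 : ℝ) ^ (q + 2)) ^ 2 = 16 ^ (q + 2) := by
      rw [← pow_mul, mul_comm, pow_mul]
      norm_num
    calc (5 * (g : ℝ) ^ 2 * 4 ^ (q + 2)) ^ 2 = 25 * (((4 : ℝ) ^ (q + 2)) ^ 2 * (g : ℝ) ^ 4) := by ring
      _ = _ := by rw [this]
  rw [e4]
  have hbb : 0 ≤ (b1 * b2) ^ 2 := sq_nonneg _
  calc (b1 * b2 * n ^ 3) ^ 2 = (b1 * b2) ^ 2 * n ^ 6 := by ring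
    _ ≤ (b1 * b2) ^ 2 * (729 / 8 * (m * m') ^ 3) := mul_le_mul_of_nonneg_left (by linarith) hbb
    _ = 729 / 32 * ((b1 * b2) ^ 2 * (4 * (m * m') ^ 3)) := by ring
    _ ≤ 729 / 32 * (16 ^ (q + 2) * (g : ℝ) ^ 4) := mul_le_mul_of_nonneg_left r3 (by norm_num)
    _ ≤ 25 * (16 ^ (q + 2) * (g : ℝ) ^ 4) := by
        apply mul_le_mul_of_nonneg_right (by norm_num) (by positivity)

/-- mean gap in the middle third -/
lemma W_lower (M q j : ℕ) (hM : q < M) (h1 : q + 2 ≤ 3 * (j + 1)) (h2 : 3 * (j + 1) ≤ 2 * (q + 2))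
    (hj : j ≤ q) : Real.sqrt ((q : ℝ) + 2) / 10 * bn B (q + 1) 1 ≤ W M B j (q - j) := by
  set s := Real.sqrt ((q : ℝ) + 2) with hs
  have hs0 : 0 < s := Real.sqrt_pos.2 (by positivity)
  have hss : s ^ 2 = (q : ℝ) + 2 := Real.sq_sqrt (by positivity)
  set a := bn B (q + 1) 1 with ha
  have ha0 : 0 ≤ a := bn_nonneg hB _ _
  have hal := a_lower hB q
  rw [← hs, ← ha] at hal
  have hpr := pr_bn hB M j (q - j) (by omega)
  have e : j + (q - j) + 1 = q + 1 := by omega
  rw [e, ← ha] at hpr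
  set t := s / 5 with ht
  have ht0 : 0 < t := by positivity
  -- pair weights
  have hw : ∀ g : ℕ, ((g : ℝ) + 1) ≤ t → bn B (j + 1) (g + 1) * bn B (q - j + 1) (g + 1)
      ≤ 8 / (5 * s) * a := by
    intro g hg
    have hp := pair_upper hB q j (g + 1) h1 h2 hj
    refine hp.trans ?_
    rw [← hss]
    have hg2 : (((g + 1 : ℕ) : ℝ)) ^ 2 ≤ t ^ 2 := by
      push_cast
      exact pow_le_pow_left₀ (by positivity) hg 2
    rw [div_le_iff₀ (by positivity)]
    calc 5 * ((g + 1 : ℕ) : ℝ) ^ 2 * 4 ^ (q + 2) ≤ 5 * t ^ 2 * 4 ^ (q + 2) := by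
          apply mul_le_mul_of_nonneg_right _ (by positivity)
          exact mul_le_mul_of_nonneg_left hg2 (by norm_num)
      _ ≤ 5 * t ^ 2 * (8 * (((q : ℝ) + 2) * s) * a) :=
          mul_le_mul_of_nonneg_left hal (by positivity)
      _ = 8 / (5 * s) * a * (s ^ 2) ^ 3 := by
          rw [← hss, ht]
          field_simp
  have hterm : ∀ g ∈ range M,
      t * (bn B (j + 1) (g + 1) * bn B (q - j + 1) (g + 1))
        - (if (g : ℝ) + 1 ≤ t then t * (8 / (5 * s) * a) else 0)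
      ≤ ((g : ℝ) + 1) * (bn B (j + 1) (g + 1) * bn B (q - j + 1) (g + 1)) := by
    intro g _
    have hb : 0 ≤ bn B (j + 1) (g + 1) * bn B (q - j + 1) (g + 1) :=
      mul_nonneg (bn_nonneg hB _ _) (bn_nonneg hB _ _)
    split_ifs with hg
    · have h3 := mul_le_mul_of_nonneg_left (hw g hg) ht0.le
      have h4 : 0 ≤ ((g : ℝ) + 1) * (bn B (j + 1) (g + 1) * bn B (q - j + 1) (g + 1)) := by
        positivity
      linarith
    · rw [sub_zero]
      exact mul_le_mul_of_nonneg_right (by linarith) hb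
  have hsum := Finset.sum_le_sum hterm
  rw [Finset.sum_sub_distrib, ← Finset.mul_sum] at hsum
  have hpr' : ∑ g ∈ range M, bn B (j + 1) (g + 1) * bn B (q - j + 1) (g + 1) = a := hpr
  rw [hpr', ← Finset.sum_filter, Finset.sum_const, nsmul_eq_mul] at hsum
  have hcard : (((range M).filter (fun g : ℕ => (g : ℝ) + 1 ≤ t)).card : ℝ) ≤ t := by
    have hsub : (range M).filter (fun g : ℕ => (g : ℝ) + 1 ≤ t) ⊆ range (Nat.floor t) := by
      intro g hg
      rw [Finset.mem_filter] at hg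
      rw [Finset.mem_range]
      have : ((g + 1 : ℕ) : ℝ) ≤ t := by
        push_cast
        exact hg.2
      have := Nat.le_floor this
      omega
    have h3 := Finset.card_le_card hsub
    rw [Finset.card_range] at h3
    calc (((range M).filter (fun g : ℕ => (g : ℝ) + 1 ≤ t)).card : ℝ) ≤ (Nat.floor t : ℝ) := by
          exact_mod_cast h3
      _ ≤ t := Nat.floor_le ht0.le
  have h5 : (((range M).filter (fun g : ℕ => (g : ℝ) + 1 ≤ t)).card : ℝ) * (t * (8 / (5 * s) * a))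
      ≤ t * (t * (8 / (5 * s) * a)) := mul_le_mul_of_nonneg_right hcard (by positivity)
  have h6 : t * (t * (8 / (5 * s) * a)) = 8 / 125 * s * a := by
    rw [ht]
    field_simp
    ring
  have h7 : 0 ≤ s * a := by positivity
  unfold W
  rw [h6] at h5
  have h8 : t * a = s * a / 5 := by rw [ht]; ring
  linarith

omit hB in
lemma count_mid (q : ℕ) (hq : 1 ≤ q) : ∃ S : Finset ℕ, S ⊆ range q ∧
    (∀ j ∈ S, q + 2 ≤ 3 * (j + 1) ∧ 3 * (j + 1) ≤ 2 * (q + 2)) ∧ q + 2 ≤ 6 * S.card := by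
  refine ⟨Ico ((q + 4) / 3 - 1) (min (2 * (q + 2) / 3) q), ?_, ?_, ?_⟩
  · intro j hj
    rw [Finset.mem_Ico] at hj
    rw [Finset.mem_range]
    omega
  · intro j hj
    rw [Finset.mem_Ico] at hj
    omega
  · rw [Nat.card_Ico]
    omega

end sol

end Pool.Agent.Gap.H62.BAL

namespace Pool.Agent.Gap

open H62.BAL

lemma H62.BAL.closeP_eq {B : ℕ → ℤ → Polynomial ℝ} (q : ℕ) : closeP 1 cap1 B (q + 2) = B (q + 1) 1 := by
  unfold closeP
  have hI : Icc (1 : ℤ) ((1 : ℕ) : ℤ) = {1} := by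
    ext x
    rw [Finset.mem_Icc, Finset.mem_singleton]
    push_cast
    omega
  simp only [hI, Finset.sum_singleton]
  rw [Finset.sum_eq_single 1]
  · simp [cap1]
  · intro m _ hm
    simp [cap1, hm]
  · intro h
    exact absurd (Finset.mem_range.2 (by omega)) h

/-- MODULE BAL -/
theorem BAL : BAL_Stmt := by
  intro B hB
  refine ⟨1 / 60, by norm_num, ?_⟩
  intro n hn
  obtain ⟨q, rfl⟩ : ∃ q, n = q + 2 := ⟨n - 2, by omega⟩
  rw [closeP_eq]
  have hn2 : (((q + 2 : ℕ)) : ℝ) = (q : ℝ) + 2 := by push_cast; ring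
  rw [hn2]
  have hb : (B (q + 1) 1).eval 1 = bn B (q + 1) 1 := by
    unfold bn
    simp
  have hd : (B (q + 1) 1).derivative.eval 1 = dn B (q + 1) 1 := by
    unfold dn
    simp
  rw [hb, hd]
  set s := Real.sqrt ((q : ℝ) + 2) with hs
  have hs0 : 0 < s := Real.sqrt_pos.2 (by positivity)
  set a := bn B (q + 1) 1 with ha
  have ha0 : 0 ≤ a := bn_nonneg hB _ _
  constructor
  · have h := a_lower hB q
    rw [← hs, ← ha] at h
    have h4 : (0:ℝ) < 4 ^ (q + 2) := by positivity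
    have e : ((q : ℝ) + 2) * s * (1 / 4) ^ (q + 2) * a = ((q : ℝ) + 2) * s * a / 4 ^ (q + 2) := by
      rw [one_div, inv_pow]
      ring
    rw [e, le_div_iff₀ h4]
    linarith
  · have hq : 1 ≤ q := by omega
    obtain ⟨S, hS, hSm, hSc⟩ := count_mid q hq
    have h1 := dn_lower hB (q + 1) q (by omega)
    have h2 : ∑ j ∈ S, W (q + 1) B j (q - j) ≤ ∑ j ∈ range q, W (q + 1) B j (q - j) :=
      Finset.sum_le_sum_of_subset_of_nonneg hS (fun j _ _ => W_nonneg hB _ _ _)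
    have h3 : ∑ j ∈ S, (s / 10 * a) ≤ ∑ j ∈ S, W (q + 1) B j (q - j) := by
      refine Finset.sum_le_sum fun j hj => ?_
      have := hSm j hj
      exact W_lower hB (q + 1) q j (by omega) this.1 this.2
        (by have := Finset.mem_range.1 (hS hj); omega)
    rw [Finset.sum_const, nsmul_eq_mul] at h3
    have h4 : ((q : ℝ) + 2) ≤ 6 * (S.card : ℝ) := by exact_mod_cast hSc
    have h5 : 0 ≤ s / 10 * a := by positivity
    have h6 : ((q : ℝ) + 2) / 6 * (s / 10 * a) ≤ (S.card : ℝ) * (s / 10 * a) :=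
      mul_le_mul_of_nonneg_right (by linarith) h5
    calc 1 / 60 * (((q : ℝ) + 2) * s) * a = ((q : ℝ) + 2) / 6 * (s / 10 * a) := by ring
      _ ≤ dn B (q + 1) 1 := by linarith

end Pool.Agent.Gap
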