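import Pool.Agent.Lib_helper62.Gap.C

set_option autoImplicit false

open Finset Filter Topology

namespace Pool.Agent.Gap.H62

/-- the staircase kernel applied to a function -/
lemma stair_Kap {N : ℕ} {f : ℤ → ℂ} (hf : Supp N f) (eps : ℝ) (z : ℂ) {g : ℤ} (hg : 1 ≤ g) :
    stair.Kap 0 eps z N f g = z * (2 * (GapKernel.wt eps (1, 1) g g : ℂ) * f g
      + (GapKernel.wt eps (1, 1) g (g + 1) : ℂ) * f (g + 1)
      + (GapKernel.wt eps (1, 1) g (g - 1) : ℂ) * f (g - 1)) := by
  unfold GapKernel.Kap GapKernel.Kz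
  have h1 : ∀ g' : ℤ, f g' = 0 → (∑ i ∈ stair.S, ((i.1 : ℂ)) ^ 0 * z ^ i.1 *
      ((stair.K i g g' * GapKernel.wt eps i g g' : ℝ) : ℂ)) * f g' = 0 := by
    intro g' h
    rw [h, mul_zero]
  rw [← tsum_supp hf (fun g' => (∑ i ∈ stair.S, ((i.1 : ℂ)) ^ 0 * z ^ i.1 *
      ((stair.K i g g' * GapKernel.wt eps i g g' : ℝ) : ℂ)) * f g') h1]
  have hS : stair.S = {(1, 1)} := rfl
  simp only [hS, Finset.sum_singleton, pow_zero, one_mul, pow_one]
  have hK : ∀ g' : ℤ, stair.K (1, 1) g g' = if 1 ≤ g ∧ 1 ≤ g' then nnT (g' - g) else 0 :=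
    fun _ => rfl
  have hn0 : nnT 0 = 2 := by simp [nnT]
  have hn1 : nnT 1 = 1 := by simp [nnT]
  have hn2 : nnT (-1) = 1 := by simp [nnT]
  have key : ∀ (g' : ℤ) (t : ℝ), nnT (g' - g) = t →
      z * ((stair.K (1, 1) g g' * GapKernel.wt eps (1, 1) g g' : ℝ) : ℂ) * f g'
        = z * ((t : ℂ) * (GapKernel.wt eps (1, 1) g g' : ℂ) * f g') := by
    intro g' t ht
    rw [hK]
    by_cases h' : 1 ≤ g'
    · rw [if_pos ⟨hg, h'⟩, ht]
      push_cast
      ring
    · rw [hf g' (Or.inl (by omega))]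
      simp
  rw [tsum_eq_sum (s := {g, g + 1, g - 1})]
  · rw [Finset.sum_insert, Finset.sum_insert, Finset.sum_singleton]
    · rw [key g 2 (by rw [sub_self, hn0]), key (g + 1) 1 (by rw [add_sub_cancel_left, hn1]),
        key (g - 1) 1 (by rw [sub_sub_cancel_left, hn2])]
      push_cast
      ring
    · rw [Finset.mem_singleton]; omega
    · rw [Finset.mem_insert, Finset.mem_singleton]; omega
  · intro g' hg'
    simp only [Finset.mem_insert, Finset.mem_singleton, not_or] at hg'
    rw [key g' 0]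
    · simp
    · unfold nnT
      rw [if_neg (by omega), if_neg]
      intro h
      rcases abs_eq (by norm_num : (0:ℤ) ≤ 1) |>.1 h with h | h <;> omega

/-- truncated linear profile -/
noncomputable def chi (P : ℕ) (g : ℤ) : ℝ := if 1 ≤ g ∧ g ≤ P then 1 - (g : ℝ) / P else 0

lemma chi_diff {P : ℕ} (hP : 2 ≤ P) {g : ℤ} (hg : 1 ≤ g) :
    chi P (g + 1) + chi P (g - 1) - 2 * chi P g
      = -(if g = 1 then 1 else 0) + (if g = P then 1 / (P : ℝ) else 0) := by
  have hP0 : (P : ℝ) ≠ 0 := by positivity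
  rcases lt_trichotomy g P with h | h | h
  · by_cases h1 : g = 1
    · subst h1
      unfold chi
      rw [if_pos ⟨by omega, by omega⟩, if_neg (by omega), if_pos ⟨by omega, by omega⟩, if_pos rfl,
        if_neg (by omega)]
      push_cast
      field_simp
      ring
    · unfold chi
      rw [if_pos ⟨by omega, by omega⟩, if_pos ⟨by omega, by omega⟩, if_pos ⟨by omega, by omega⟩,
        if_neg h1, if_neg (by omega)]
      push_cast
      field_simp
      ring
  · subst h
    unfold chi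
    rw [if_neg (by omega), if_pos ⟨by omega, by omega⟩, if_pos ⟨by omega, by omega⟩,
      if_neg (by omega), if_pos rfl]
    push_cast
    field_simp
    ring
  · unfold chi
    rw [if_neg (by omega), if_neg (by omega : ¬ (1 ≤ g ∧ g ≤ (P : ℤ))),
      if_neg (by omega : ¬ g = 1), if_neg (by omega : ¬ g = (P : ℤ))]
    split_ifs with h2
    · have : g - 1 = P := by omega
      rw [this]
      push_cast
      field_simp
      ring
    · ring

lemma chi_nonneg (P : ℕ) (g : ℤ) : 0 ≤ chi P g := by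
  unfold chi
  split_ifs with h
  · have h1 : (g : ℝ) ≤ P := by exact_mod_cast h.2
    have h2 : (1:ℝ) ≤ g := by exact_mod_cast h.1
    have : (g : ℝ) / P ≤ 1 := by
      rw [div_le_one (by linarith)]
      exact h1
    linarith
  · exact le_rfl

lemma chi_le_one (P : ℕ) (g : ℤ) : chi P g ≤ 1 := by
  unfold chi
  split_ifs with h
  · have h2 : (1:ℝ) ≤ g := by exact_mod_cast h.1
    have : 0 ≤ (g : ℝ) / P := by positivity
    linarith
  · norm_num

lemma chi_gt {P : ℕ} {g : ℤ} (h : (P : ℤ) < g) : chi P g = 0 := by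
  unfold chi
  rw [if_neg (by omega)]

lemma one_sub_chi {P : ℕ} (hP : 1 ≤ P) {g : ℤ} (hg : 1 ≤ g) : |chi P g - 1| ≤ (g : ℝ) / P := by
  have hP0 : (0:ℝ) < P := by positivity
  have h2 : (1:ℝ) ≤ g := by exact_mod_cast hg
  unfold chi
  split_ifs with h
  · rw [sub_sub_cancel_left, abs_neg, abs_of_nonneg (by positivity)]
  · have h1 : (P : ℝ) ≤ g := by exact_mod_cast (by omega : (P : ℤ) ≤ g)
    rw [zero_sub, abs_neg, abs_one, le_div_iff₀ hP0]
    linarith

end Pool.Agent.Gap.H62

namespace Pool.Agent.Gap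

open H62

/-- MODULE ST1 -/
theorem ST1 (hC : C_Stmt) : ST1_Stmt := by
  intro κ hκ
  obtain ⟨c, hc, hcoer⟩ := hC stair
  set B : ℝ := 37 * κ + 1 / 4 with hB
  have hB0 : 0 < B := by positivity
  refine ⟨2 + 6 * B ^ 2 / c ^ 2, by positivity, ?_⟩
  intro n N eps z v hn hN he hz hzd hepsn hsol g hg1 hgN
  have hn0 : (1:ℝ) ≤ n := by exact_mod_cast hn
  set s : ℝ := Real.sqrt n with hs
  have hs1 : 1 ≤ s := Real.one_le_sqrt.2 hn0
  have hss : s * s = n := Real.mul_self_sqrt (by linarith)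
  set P : ℕ := Nat.sqrt n + 2 with hP
  have hP2 : 2 ≤ P := by omega
  have hPs : s ≤ P := by
    have h1 : n < (Nat.sqrt n + 1) * (Nat.sqrt n + 1) := Nat.lt_succ_sqrt n
    have h2 : (n : ℝ) < ((Nat.sqrt n : ℝ) + 1) * ((Nat.sqrt n : ℝ) + 1) := by exact_mod_cast h1
    have h3 : s < (Nat.sqrt n : ℝ) + 1 := by
      rw [hs, Real.sqrt_lt' (by positivity), sq]
      exact h2
    rw [hP]
    push_cast
    linarith
  have hPs3 : (P : ℝ) ≤ 3 * s := by
    have h1 : Nat.sqrt n * Nat.sqrt n ≤ n := Nat.sqrt_le n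
    have h2 : (Nat.sqrt n : ℝ) * (Nat.sqrt n : ℝ) ≤ n := by exact_mod_cast h1
    have h3 : (Nat.sqrt n : ℝ) ≤ s := by
      rw [hs]
      apply Real.le_sqrt_of_sq_le
      rw [sq]
      exact h2
    rw [hP]
    push_cast
    linarith
  have hP0 : (0:ℝ) < P := by positivity
  have hPN : P + 1 ≤ N := by
    have : Nat.sqrt n ≤ n := Nat.sqrt_le_self n
    omega
  -- the difference
  set y : ℤ → ℂ := fun g => v g - (chi P g : ℂ) with hy
  have hchi0 : ∀ g : ℤ, (g < 1 ∨ (N : ℤ) < g) → chi P g = 0 := by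
    intro g hg
    unfold chi
    rw [if_neg (by omega)]
  have hchis : Supp N (fun g => (chi P g : ℂ)) := by
    intro g hg
    simp only
    rw [hchi0 g hg, Complex.ofReal_zero]
  have hys : Supp N y := by
    intro g hg
    rw [hy]
    simp only
    rw [hsol.1 g hg, hchi0 g hg, Complex.ofReal_zero, sub_zero]
  -- the residual
  set r : ℤ → ℂ := fun g =>
    2 * (z * (GapKernel.wt eps (1, 1) g g : ℂ) - 1 / 4) * (chi P g : ℂ)
      + (z * (GapKernel.wt eps (1, 1) g (g + 1) : ℂ) - 1 / 4) * (chi P (g + 1) : ℂ)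
      + (z * (GapKernel.wt eps (1, 1) g (g - 1) : ℂ) - 1 / 4) * (chi P (g - 1) : ℂ) with hr
  have hLy : ∀ g ∈ Icc (1 : ℤ) N, stair.Lop eps z N y g
      = (z - 1 / 4) * (if g = 1 then 1 else 0) + (1 / 4) * (if g = P then 1 / (P : ℂ) else 0)
        + r g := by
    intro g hg
    have hg' := Finset.mem_Icc.1 hg
    have h1 : stair.Lop eps z N y g = stair.Lop eps z N v g
        - stair.Lop eps z N (fun g => (chi P g : ℂ)) g := by
      unfold GapKernel.Lop
      rw [stair_Kap hys eps z hg'.1, stair_Kap hsol.1 eps z hg'.1, stair_Kap hchis eps z hg'.1]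
      rw [hy]
      simp only
      ring
    rw [h1, hsol.2 g hg]
    unfold GapKernel.Lop
    rw [stair_Kap hchis eps z hg'.1]
    have h2 : ((chi P (g + 1) : ℝ) : ℂ) + ((chi P (g - 1) : ℝ) : ℂ) - 2 * ((chi P g : ℝ) : ℂ)
        = -(if g = 1 then 1 else 0) + (if g = P then 1 / (P : ℂ) else 0) := by
      have := congrArg (fun t : ℝ => (t : ℂ)) (chi_diff hP2 hg'.1)
      push_cast at this
      rw [this]
      congr 1
      · split_ifs <;> simp
      · split_ifs <;> simp
    have h3 : src1 z g = z * (if g = 1 then 1 else 0) := by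
      unfold src1
      split_ifs <;> simp
    rw [h3, hr]
    simp only
    linear_combination (1 / 4 : ℂ) * h2
  -- bound of the kernel difference
  have heps : eps * s ≤ κ / n := by
    rw [le_div_iff₀ (by linarith)]
    calc eps * s * n = eps * (n * s) := by ring
      _ ≤ κ := hepsn
  have hw : ∀ a b : ℤ, 1 ≤ a → 0 ≤ b → a ≤ P → b ≤ P + 1 →
      ‖z * (GapKernel.wt eps (1, 1) a b : ℂ) - 1 / 4‖ ≤ 3 * κ / n := by
    intro a b ha hb haP hbP
    have e : z * (GapKernel.wt eps (1, 1) a b : ℂ) - 1 / 4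
        = -(((1 / 4 : ℂ) - z) * (GapKernel.wt eps (1, 1) a b : ℂ))
          - (1 / 4) * ((1 - GapKernel.wt eps (1, 1) a b : ℝ) : ℂ) := by
      push_cast
      ring
    have hw0 := wt_nonneg eps (1, 1) a b
    have hw1 := wt_le_one he (1, 1) (show 0 ≤ a by omega) hb
    have hw2 : 1 - GapKernel.wt eps (1, 1) a b ≤ eps * (7 * s) := by
      have h1 : 1 - GapKernel.wt eps (1, 1) a b ≤ eps * ((a : ℝ) + b) := by
        unfold GapKernel.wt
        have := Real.add_one_le_exp (-(eps * (((1, 1) : ℕ × ℕ).2 : ℝ) * ((a : ℝ) + (b : ℝ))))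
        push_cast at this ⊢
        linarith
      refine h1.trans (mul_le_mul_of_nonneg_left ?_ he)
      have h2 : (a : ℝ) ≤ P := by exact_mod_cast haP
      have h3 : (b : ℝ) ≤ P + 1 := by exact_mod_cast hbP
      linarith
    rw [e]
    refine (norm_sub_le _ _).trans ?_
    rw [norm_neg, norm_mul, norm_mul, Complex.norm_real, Complex.norm_real,
      Real.norm_of_nonneg hw0, Real.norm_of_nonneg (by linarith : (0:ℝ) ≤ 1 - _)]
    have h4 : ‖(1 / 4 : ℂ)‖ = 1 / 4 := by norm_num
    rw [h4]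
    have h5 : ‖(1 / 4 : ℂ) - z‖ * GapKernel.wt eps (1, 1) a b ≤ κ / n * 1 :=
      mul_le_mul hzd hw1 hw0 (by positivity)
    have h6 : 3 * κ / n = 3 * (κ / n) := by ring
    rw [h6]
    linarith
  have hrb : ∀ g ∈ Icc (1 : ℤ) N, ‖r g‖ ≤ if g ≤ P then 12 * κ / n else 0 := by
    intro g hg
    have hg' := Finset.mem_Icc.1 hg
    split_ifs with hgP
    · rw [hr]
      simp only
      have hb : ∀ t : ℤ, ‖((chi P t : ℝ) : ℂ)‖ ≤ 1 := fun t => by
        rw [Complex.norm_real, Real.norm_of_nonneg (chi_nonneg P t)]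
        exact chi_le_one P t
      have hM : (0:ℝ) ≤ 3 * κ / n := by positivity
      have a1 := hw g g hg'.1 (by omega) hgP (by omega)
      have a2 := hw g (g + 1) hg'.1 (by omega) hgP (by omega)
      have a3 := hw g (g - 1) hg'.1 (by omega) hgP (by omega)
      refine (norm_add_le _ _).trans ?_
      refine (add_le_add (norm_add_le _ _) le_rfl).trans ?_
      rw [norm_mul, norm_mul, norm_mul, norm_mul]
      have h2 : ‖(2 : ℂ)‖ = 2 := by norm_num
      rw [h2]
      have b1 := mul_le_mul (mul_le_mul_of_nonneg_left a1 (show (0:ℝ) ≤ 2 by norm_num)) (hb g)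
        (norm_nonneg _) (by positivity)
      have b2 := mul_le_mul a2 (hb (g + 1)) (norm_nonneg _) hM
      have b3 := mul_le_mul a3 (hb (g - 1)) (norm_nonneg _) hM
      have h12 : 12 * κ / n = 4 * (3 * κ / n) := by ring
      rw [h12]
      linarith
    · rw [hr]
      simp only
      have h1 : chi P g = 0 := chi_gt (by omega)
      have h2 : chi P (g + 1) = 0 := chi_gt (by omega)
      have h3 : chi P (g - 1) = 0 := by
        rcases eq_or_lt_of_le (show (P : ℤ) ≤ g - 1 by omega) with h | h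
        · rw [← h]
          unfold chi
          rw [if_pos ⟨by omega, by omega⟩]
          push_cast
          field_simp
          ring
        · exact chi_gt h
      rw [h1, h2, h3]
      simp
  -- energy bound
  set E := En N y with hE
  have hE0 : 0 ≤ E := En_nonneg N y
  have hyb : ∀ g ∈ Icc (1 : ℤ) N, g ≤ P → ‖y g‖ ≤ Real.sqrt (P * E) := by
    intro g hg hgP
    have hg' := Finset.mem_Icc.1 hg
    obtain ⟨k, rfl⟩ := Int.eq_ofNat_of_zero_le (show 0 ≤ g by omega)
    apply Real.le_sqrt_of_sq_le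
    refine (sq_le_En hys k).trans ?_
    apply mul_le_mul_of_nonneg_right _ hE0
    exact_mod_cast hgP
  have hform : ‖form N y (stair.Lop eps z N y)‖ ≤ Real.sqrt (P * E) * (B / s) := by
    unfold form
    have h1 : ∀ g ∈ Icc (1 : ℤ) N, ‖(starRingEnd ℂ) (y g) * stair.Lop eps z N y g‖
        ≤ Real.sqrt (P * E) * ((κ / n) * (if g = 1 then 1 else 0)
          + (1 / 4 * (1 / (P : ℝ))) * (if g = P then 1 else 0)
          + (12 * κ / n) * (if g ≤ P then 1 else 0)) := by
      intro g hg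
      have hg' := Finset.mem_Icc.1 hg
      rw [norm_mul, RCLike.norm_conj]
      by_cases hgP : g ≤ P
      · apply mul_le_mul (hyb g hg hgP) _ (norm_nonneg _) (Real.sqrt_nonneg _)
        rw [hLy g hg]
        refine (norm_add_le _ _).trans ?_
        refine add_le_add ((norm_add_le _ _).trans (add_le_add ?_ ?_)) ?_
        · rw [norm_mul]
          split_ifs
          · rw [norm_one, mul_one, mul_one, norm_sub_rev]
            exact hzd
          · simp
        · rw [norm_mul]
          have h4 : ‖(1 / 4 : ℂ)‖ = 1 / 4 := by norm_num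
          rw [h4]
          split_ifs
          · rw [mul_one, norm_div, norm_one, Complex.norm_natCast]
          · simp
        · have := hrb g hg
          rw [if_pos hgP] at this
          rw [if_pos hgP, mul_one]
          exact this
      · have hL0 : stair.Lop eps z N y g = 0 := by
          rw [hLy g hg, if_neg (by omega), if_neg (by omega)]
          have := hrb g hg
          rw [if_neg hgP] at this
          have h0 : r g = 0 := by
            rw [← norm_le_zero_iff]
            exact this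
          rw [h0]
          simp
        rw [hL0, norm_zero, mul_zero]
        apply mul_nonneg (Real.sqrt_nonneg _)
        rw [if_neg (by omega), if_neg (by omega), if_neg hgP]
        simp
    refine (norm_sum_le _ _).trans ((Finset.sum_le_sum h1).trans ?_)
    rw [← Finset.mul_sum]
    apply mul_le_mul_of_nonneg_left _ (Real.sqrt_nonneg _)
    rw [Finset.sum_add_distrib, Finset.sum_add_distrib, ← Finset.mul_sum, ← Finset.mul_sum,
      ← Finset.mul_sum]
    have c1 : ∑ g ∈ Icc (1 : ℤ) N, (if g = 1 then (1:ℝ) else 0) ≤ 1 := by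
      rw [Finset.sum_ite_eq']
      split_ifs <;> norm_num
    have c2 : ∑ g ∈ Icc (1 : ℤ) N, (if g = (P : ℤ) then (1:ℝ) else 0) ≤ 1 := by
      rw [Finset.sum_ite_eq']
      split_ifs <;> norm_num
    have c3 : ∑ g ∈ Icc (1 : ℤ) N, (if g ≤ (P : ℤ) then (1:ℝ) else 0) ≤ P := by
      rw [← Finset.sum_filter, Finset.sum_const, nsmul_eq_mul, mul_one]
      have : (Icc (1 : ℤ) (N : ℤ)).filter (fun g : ℤ => g ≤ (P : ℤ)) ⊆ Icc (1 : ℤ) (P : ℤ) := by
        intro g hg
        rw [Finset.mem_filter, Finset.mem_Icc] at hg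
        rw [Finset.mem_Icc]
        omega
      have h1 := Finset.card_le_card this
      rw [Int.card_Icc] at h1
      have h2 : ((Icc (1 : ℤ) (N : ℤ)).filter (fun g : ℤ => g ≤ (P : ℤ))).card ≤ P := by
        refine h1.trans ?_
        simp
      exact_mod_cast h2
    have d1 : (κ / n) * ∑ g ∈ Icc (1 : ℤ) N, (if g = 1 then (1:ℝ) else 0) ≤ κ / s := by
      calc _ ≤ κ / n * 1 := mul_le_mul_of_nonneg_left c1 (by positivity)
        _ = κ / n := mul_one _
        _ ≤ κ / s := by
          apply div_le_div_of_nonneg_left hκ.le (by linarith)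
          nlinarith
    have d2 : (1 / 4 * (1 / (P : ℝ))) * ∑ g ∈ Icc (1 : ℤ) N, (if g = (P : ℤ) then (1:ℝ) else 0)
        ≤ 1 / 4 / s := by
      calc _ ≤ (1 / 4 * (1 / (P : ℝ))) * 1 := mul_le_mul_of_nonneg_left c2 (by positivity)
        _ = 1 / 4 / P := by ring
        _ ≤ 1 / 4 / s := div_le_div_of_nonneg_left (by norm_num) (by linarith) hPs
    have d3 : (12 * κ / n) * ∑ g ∈ Icc (1 : ℤ) N, (if g ≤ (P : ℤ) then (1:ℝ) else 0)
        ≤ 36 * κ / s := by
      calc _ ≤ (12 * κ / n) * P := mul_le_mul_of_nonneg_left c3 (by positivity)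
        _ ≤ (12 * κ / n) * (3 * s) := mul_le_mul_of_nonneg_left hPs3 (by positivity)
        _ = 36 * κ / s := by
          rw [← hss]
          field_simp
          ring
    calc _ ≤ κ / s + 1 / 4 / s + 36 * κ / s := add_le_add (add_le_add d1 d2) d3
      _ = B / s := by rw [hB]; ring
  have hco := hcoer N eps z y he hz hys
  have hPot0 : 0 ≤ Pot eps N y := Pot_nonneg he N y
  have hnsq0 : 0 ≤ nsq N y := nsq_nonneg N y
  have hcE : c * E ≤ Real.sqrt (P * E) * (B / s) := by
    refine le_trans ?_ (hco.trans hform)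
    apply mul_le_mul_of_nonneg_left _ hc.le
    have : 0 ≤ ‖((stair.rho : ℝ) : ℂ) - z‖ * nsq N y := mul_nonneg (norm_nonneg _) hnsq0
    linarith
  have hEb : E ≤ 3 * B ^ 2 / (c ^ 2 * s) := by
    rcases eq_or_lt_of_le hE0 with h0 | h0
    · rw [← h0]
      positivity
    · have h1 : (c * E) ^ 2 ≤ (Real.sqrt (P * E) * (B / s)) ^ 2 :=
        pow_le_pow_left₀ (by positivity) hcE 2
      rw [mul_pow, mul_pow, Real.sq_sqrt (by positivity), div_pow] at h1
      have h2 : c ^ 2 * E ≤ P * (B ^ 2 / s ^ 2) := by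
        have : (c ^ 2 * E) * E ≤ (P * (B ^ 2 / s ^ 2)) * E := by
          calc (c ^ 2 * E) * E = c ^ 2 * E ^ 2 := by ring
            _ ≤ P * E * (B ^ 2 / s ^ 2) := h1
            _ = _ := by ring
        exact le_of_mul_le_mul_right this h0
      have h3 : (P : ℝ) * (B ^ 2 / s ^ 2) ≤ (3 * s) * (B ^ 2 / s ^ 2) :=
        mul_le_mul_of_nonneg_right hPs3 (by positivity)
      have h4 : (3 * s) * (B ^ 2 / s ^ 2) = 3 * B ^ 2 / s := by
        field_simp
      rw [le_div_iff₀ (by positivity)]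
      have h5 : c ^ 2 * E ≤ 3 * B ^ 2 / s := by linarith
      rw [le_div_iff₀ (by linarith)] at h5
      linarith
  -- conclusion
  have hgr : (1:ℝ) ≤ g := by exact_mod_cast hg1
  have hyg : ‖y g‖ ^ 2 ≤ (g : ℝ) * E := by
    obtain ⟨k, rfl⟩ := Int.eq_ofNat_of_zero_le (show 0 ≤ g by omega)
    exact sq_le_En hys k
  have hchi := one_sub_chi (show 1 ≤ P by omega) hg1
  have hv : ‖v g - 1‖ ≤ ‖y g‖ + |chi P g - 1| := by
    have e : v g - 1 = y g + ((chi P g - 1 : ℝ) : ℂ) := by
      rw [hy]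
      push_cast
      ring
    rw [e]
    refine (norm_add_le _ _).trans ?_
    rw [Complex.norm_real, Real.norm_eq_abs]
  have h1 : ‖v g - 1‖ ^ 2 ≤ 2 * ‖y g‖ ^ 2 + 2 * |chi P g - 1| ^ 2 := by
    have := pow_le_pow_left₀ (norm_nonneg _) hv 2
    nlinarith [sq_nonneg (‖y g‖ - |chi P g - 1|)]
  have h2 : |chi P g - 1| ^ 2 ≤ (g : ℝ) ^ 2 / s := by
    calc |chi P g - 1| ^ 2 ≤ ((g : ℝ) / P) ^ 2 := pow_le_pow_left₀ (abs_nonneg _) hchi 2
      _ = (g : ℝ) ^ 2 / (P : ℝ) ^ 2 := div_pow _ _ _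
      _ ≤ (g : ℝ) ^ 2 / s := by
        apply div_le_div_of_nonneg_left (by positivity) (by linarith)
        nlinarith
  have h3 : (g : ℝ) * E ≤ 3 * B ^ 2 / c ^ 2 * ((g : ℝ) ^ 2 / s) := by
    calc (g : ℝ) * E ≤ (g : ℝ) * (3 * B ^ 2 / (c ^ 2 * s)) :=
          mul_le_mul_of_nonneg_left hEb (by linarith)
      _ ≤ (g : ℝ) ^ 2 * (3 * B ^ 2 / (c ^ 2 * s)) := by
          apply mul_le_mul_of_nonneg_right _ (by positivity)
          nlinarith
      _ = _ := by
          field_simp
  calc ‖v g - 1‖ ^ 2 ≤ 2 * (3 * B ^ 2 / c ^ 2 * ((g : ℝ) ^ 2 / s)) + 2 * ((g : ℝ) ^ 2 / s) := by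
        linarith
    _ = (2 + 6 * B ^ 2 / c ^ 2) * (g : ℝ) ^ 2 / s := by ring

end Pool.Agent.Gap
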